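import Mathlib

/-!
# DW-RDef: the numbers and the polynomials of the signed count
-/

open Polynomial

namespace MotMono
namespace DW

/-- the Euler characteristic of the part with no zero coordinates of a generic fibre of degrees `L` in
`n` variables -/
def R : ℕ → List ℕ → ℤ
  | 0, [] => 1
  | _ + 1, [] => 0
  | 0, _ :: _ => 0
  | n + 1, d :: L => d * (R n L - R n (d :: L))

/-- the Euler characteristic of a fibre of the degrees `L` in the variables `S` with weights `w` -/
noncomputable def UU {N : ℕ} (w : Fin N → ℕ) (S : Finset (Fin N)) (L : List ℕ) : ℚ :=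
  ∑ T ∈ S.powerset, (R T.card L : ℚ) / ∏ i ∈ T, (w i : ℚ)

open Classical in
/-- the variables `i` with `e ∣ m * w i` -/
noncomputable def SS {N : ℕ} (w : Fin N → ℕ) (e m : ℕ) : Finset (Fin N) :=
  Finset.univ.filter fun i => e ∣ m * w i

/-- `X^w + X^(2w) + … + X^(d-w)` -/
noncomputable def pA (w d : ℕ) : ℕ[X] := ∑ b ∈ Finset.Ico 1 (d / w), X ^ (b * w)

/-- `1 + X^w + … + X^(d-w)` -/
noncomputable def pC (w d : ℕ) : ℕ[X] := ∑ b ∈ Finset.range (d / w), X ^ (b * w)

/-- the path polynomials -/
noncomputable def pW : List ℕ → List ℕ → ℕ[X]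
  | _, [] => 0
  | [], [_] => 1
  | [], _ :: _ :: _ => 0
  | w :: ws, [d] => pA w d * pW ws [d]
  | w :: ws, d :: d' :: L => pA w d * pW ws (d :: d' :: L) + pC w d' * pW ws (d' :: L)

/-- the alternating sums of the path polynomials, written with positive terms -/
noncomputable def pV : List ℕ → List ℕ → ℕ[X]
  | _, [] => 0
  | [], _ :: _ => 0
  | w :: ws, d :: L => pA w d * pW ws (d :: L) + pV ws L

open Classical in
/-- the number `UU` of the variables `w` with `z ^ w = 1`, by recursion -/
noncomputable def uz (z : ℂ) : List ℕ → List ℕ → ℂ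
  | _, [] => 1
  | [], _ :: _ => 0
  | w :: ws, d :: L => if z ^ w = 1 then (d : ℂ) / w * uz z ws L - ((d : ℂ) / w - 1) * uz z ws (d :: L)
      else uz z ws (d :: L)

/-- `(-1)^(|ws| + |L|) (uz - 1)` -/
noncomputable def vz (z : ℂ) (ws L : List ℕ) : ℂ := (-1) ^ (ws.length + L.length) * (uz z ws L - 1)

end DW
end MotMono
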