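import Pool.Agent.Lib.MP_4e5fcd_ag.DW.Defs
import Pool.Agent.Lib.MP_4e5fcd_ag.DW.RDef
import Pool.Agent.Lib.MP_4e5fcd_ag.HC.Pol

/-!
# DW-Base: common definitions

`fer a K`: the system `∑ i, a j i * x_i ^ (K j i)`; `Gen a`: its coefficients are generic (all values of
derivations of `ℂ` at them are possible); `YY w F e m`: the points of the fibre `{F 0 = 1, F 1 = … = 0}`
with `x i = 0` unless `e ∣ m * w i`; `ZZ a δ T`: the points of the fibre of the system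
`∑ i, a j i * z_i ^ (δ j)` with `z i = 0` for `i ∉ T`; `ZS`: those with `z i ≠ 0` for `i ∈ T`;
`XS`: the points with support `T` of the fibre of the system `∑ i, a j i * x_i ^ (δ j / w i)`.
-/

open MvPolynomial

namespace MotMono
namespace DW

open LF HC

/-- generic coefficients -/
def Gen {c N : ℕ} (a : Fin c → Fin N → ℂ) : Prop :=
  ∀ v : Fin c → Fin N → ℂ, ∃ D : Derivation ℤ ℂ ℂ, ∀ j i, D (a j i) = v j i

/-- the system `∑ i, a j i * x_i ^ (K j i)` -/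
noncomputable def fer {c N : ℕ} (a : Fin c → Fin N → ℂ) (K : Fin c → Fin N → ℕ) :
    Fin c → MvPolynomial (Fin N) ℂ :=
  fun j => ∑ i, C (a j i) * X i ^ K j i

/-- the fixed points of the `m`-th power of the monodromy on the fibre `{F 0 = 1, F 1 = … = 0}` -/
def YY {n N : ℕ} (w : Fin N → ℕ) (F : Fin (n + 1) → MvPolynomial (Fin N) ℂ) (e m : ℕ) :
    Set (Fin N → ℂ) :=
  {x | (∀ j : Fin n, eval x (F j.succ) = 0) ∧ eval x (F 0) = 1 ∧ ∀ i, ¬ e ∣ m * w i → x i = 0}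

/-- the fibre of the system `∑ i, a j i * z_i ^ (δ j)` in the variables `i ∈ T` -/
def ZZ {n N : ℕ} (a : Fin (n + 1) → Fin N → ℂ) (δ : Fin (n + 1) → ℕ) (T : Finset (Fin N)) :
    Set (Fin N → ℂ) :=
  {z | (∀ j : Fin n, ∑ i, a j.succ i * z i ^ δ j.succ = 0) ∧ ∑ i, a 0 i * z i ^ δ 0 = 1 ∧
    ∀ i, i ∉ T → z i = 0}

/-- the points of `ZZ a δ T` with support `T` -/
def ZS {n N : ℕ} (a : Fin (n + 1) → Fin N → ℂ) (δ : Fin (n + 1) → ℕ) (T : Finset (Fin N)) :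
    Set (Fin N → ℂ) :=
  {z | (∀ j : Fin n, ∑ i, a j.succ i * z i ^ δ j.succ = 0) ∧ ∑ i, a 0 i * z i ^ δ 0 = 1 ∧
    ∀ i, i ∉ T ↔ z i = 0}

/-- the points with support `T` of the fibre of the system `∑ i, a j i * x_i ^ (δ j / w i)` -/
def XS {n N : ℕ} (w : Fin N → ℕ) (a : Fin (n + 1) → Fin N → ℂ) (δ : Fin (n + 1) → ℕ)
    (T : Finset (Fin N)) : Set (Fin N → ℂ) :=
  {x | (∀ j : Fin n, ∑ i, a j.succ i * x i ^ (δ j.succ / w i) = 0) ∧
    ∑ i, a 0 i * x i ^ (δ 0 / w i) = 1 ∧ ∀ i, i ∉ T ↔ x i = 0}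

end DW
end MotMono
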