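import Pool.Agent.Lib.MP_4e5fcd_ag.HC.Defs

/-!
# Weighted homogeneous systems, weights dividing all degrees: definitions of the statement
-/

open MvPolynomial

namespace MotMono
namespace HC

/-- Euler characteristics of complex varieties, with the additional property that `χ` has the same
value at the fibres `{F 0 = 1, F 1 = F 2 = … = 0}` of weighted homogeneous systems of the same weights
and degrees, if `F 0, F 1, …` and `F 1, F 2, …` have linearly independent gradients at their common
zeros `≠ 0`. (These fibres are diffeomorphic; the topological Euler characteristic has this property.) -/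
structure IsEulerCharW (χ : K0 →+* ℤ) : Prop extends IsEulerCharF χ where
  wci : ∀ (N n : ℕ) (w : Fin N → ℕ) (δ : Fin (n + 1) → ℕ)
    (F G : Fin (n + 1) → MvPolynomial (Fin N) ℂ), (∀ i, 0 < w i) → (∀ j, 0 < δ j) →
    (∀ j, IsWeightedHomogeneous w (F j) (δ j)) → (∀ j, IsWeightedHomogeneous w (G j) (δ j)) →
    NS F → NS (Fin.tail F) → NS G → NS (Fin.tail G) →
      χ (cls {x : Fin N → ℂ | (∀ j : Fin n, eval x (F j.succ) = 0) ∧ eval x (F 0) = 1}) =
        χ (cls {x : Fin N → ℂ | (∀ j : Fin n, eval x (G j.succ) = 0) ∧ eval x (G 0) = 1})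

end HC
end MotMono
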