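import Pool.Agent.Lib.MP_4e5fcd_ag.DW.RDef

/-!
# DW-MAlt: the values of the path polynomials at roots of unity

`e` is the last degree, `z ^ e = 1`, all weights divide all degrees, `0 < w ≤ d`.

PROOF.
`vz_cons` (`a := aeval z (pA w d)`): if `z ^ w = 1` then `a = d / w - 1` (a sum of `d / w - 1` ones) and the
claim is the definition of `uz` (`ring`; `(-1)^(n+2) = (-1)^n`). If `z ^ w ≠ 1` then `uz z (w :: ws) (d :: L) =
uz z ws (d :: L)`, `vz z (w :: ws) (d :: L) = - vz z ws (d :: L)`, and we must show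
`(1 + a) * (vz z ws (d :: L) + vz z ws L) = 0`. `1 + a = aeval z (pC w d) = ∑ b < d / w, (z ^ w) ^ b`. If
`z ^ d = 1`, this geometric sum is `0` (`geom_sum_eq`, `(z ^ w) ^ (d / w) = z ^ d = 1`). If `z ^ d ≠ 1` then
`d ≠ e`, so `L ≠ []` (the last element of `d :: L` is `e`), and no `w' ∈ ws` has `z ^ w' = 1` (`w' ∣ d`), so
`uz z ws (d :: L) = 0 = uz z ws L` (lemma `uz_zero`: if `z ^ w' ≠ 1` for all `w' ∈ ws` and `L ≠ []` then
`uz z ws L = 0`, induction on `ws`), and `vz z ws (d :: L) + vz z ws L = 0`.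
`aeval_pW`: induction on `ws` (for all `d`, `L`). `ws = []`: `vz z [] [d] + vz z [] [] = 1`, and
`vz z [] (d :: d' :: L) + vz z [] (d' :: L) = 0`. Step, `L = []`: `vz z _ [] = 0` and `vz_cons`. Step,
`L = d' :: L'`: `vz_cons` for `d :: L` and for `d' :: L'`, `aeval z (pC w d') = 1 + aeval z (pA w d')`, `ring`.
`aeval_pV`: induction on `ws`: `pV (w :: ws) (d :: L) = pA w d * pW ws (d :: L) + pV ws L`, `aeval_pW`, the
induction hypothesis (`L.length ≤ ws.length`) (if `L = []` then `pV ws [] = 0 = vz z ws []`), `vz_cons`.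
-/

open Polynomial

namespace MotMono
namespace DW

private theorem ma_uz_nil (z : ℂ) (ws : List ℕ) : uz z ws [] = 1 := by
  cases ws <;> simp [uz]

private theorem ma_uz_cons (z : ℂ) (w d : ℕ) (ws L : List ℕ) : uz z (w :: ws) (d :: L) =
    if z ^ w = 1 then (d : ℂ) / w * uz z ws L - ((d : ℂ) / w - 1) * uz z ws (d :: L)
      else uz z ws (d :: L) := by
  simp only [uz]

private theorem ma_uz_nil_cons (z : ℂ) (d : ℕ) (L : List ℕ) : uz z [] (d :: L) = 0 := by
  simp [uz]

private theorem ma_uz_zero (z : ℂ) (ws : List ℕ) (h : ∀ w ∈ ws, z ^ w ≠ 1) (L : List ℕ)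
    (hL : L ≠ []) : uz z ws L = 0 := by
  induction ws with
  | nil =>
    cases L with
    | nil => exact absurd rfl hL
    | cons d L => exact ma_uz_nil_cons z d L
  | cons w ws ih =>
    cases L with
    | nil => exact absurd rfl hL
    | cons d L =>
      rw [ma_uz_cons, if_neg (h w List.mem_cons_self)]
      exact ih fun w' hw' => h w' (List.mem_cons_of_mem _ hw')

private theorem ma_pA (z : ℂ) (w d : ℕ) :
    aeval z (pA w d) = ∑ b ∈ Finset.Ico 1 (d / w), z ^ (b * w) := by
  unfold pA
  rw [map_sum]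
  exact Finset.sum_congr rfl fun b _ => by rw [map_pow, aeval_X]

private theorem ma_pC (z : ℂ) (w d : ℕ) :
    aeval z (pC w d) = ∑ b ∈ Finset.range (d / w), z ^ (b * w) := by
  unfold pC
  rw [map_sum]
  exact Finset.sum_congr rfl fun b _ => by rw [map_pow, aeval_X]

theorem vz_nil (z : ℂ) (ws : List ℕ) : vz z ws [] = 0 := by
  unfold vz
  rw [ma_uz_nil, sub_self, mul_zero]

theorem aeval_pC (z : ℂ) {w d : ℕ} (hw : 0 < w) (hd : w ≤ d) :
    aeval z (pC w d) = 1 + aeval z (pA w d) := by
  rw [ma_pA, ma_pC, Finset.sum_range_eq_add_Ico _ (Nat.div_pos hd hw)]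
  simp

theorem vz_cons {z : ℂ} {w d : ℕ} {ws L : List ℕ} {e : ℕ} (hz : z ^ e = 1)
    (he : (d :: L).getLast (List.cons_ne_nil _ _) = e) (hw : ∀ x ∈ w :: ws, 0 < x)
    (hd : ∀ x ∈ w :: ws, ∀ y ∈ d :: L, x ∣ y ∧ x ≤ y) :
    vz z (w :: ws) (d :: L) =
      aeval z (pA w d) * vz z ws (d :: L) + (1 + aeval z (pA w d)) * vz z ws L := by
  have hw0 : 0 < w := hw w List.mem_cons_self
  have hwd := hd w List.mem_cons_self d List.mem_cons_self
  have hs1 : ((-1 : ℂ)) ^ ((w :: ws).length + (d :: L).length) = (-1) ^ (ws.length + L.length) := by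
    rw [List.length_cons, List.length_cons,
      show ws.length + 1 + (L.length + 1) = ws.length + L.length + 2 by ring, pow_add]
    norm_num
  have hs2 : ((-1 : ℂ)) ^ (ws.length + (d :: L).length) = -(-1) ^ (ws.length + L.length) := by
    rw [List.length_cons, ← add_assoc, pow_succ]
    ring
  by_cases h1 : z ^ w = 1
  · have ha : aeval z (pA w d) = (d : ℂ) / w - 1 := by
      have h2 := aeval_pC z hw0 hwd.2
      have h3 : aeval z (pC w d) = (d : ℂ) / w := by
        rw [ma_pC]
        have h4 : ∀ b ∈ Finset.range (d / w), z ^ (b * w) = 1 := by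
          intro b _
          rw [mul_comm, pow_mul, h1, one_pow]
        rw [Finset.sum_congr rfl h4, Finset.sum_const, Finset.card_range, nsmul_eq_mul, mul_one,
          Nat.cast_div hwd.1 (by exact_mod_cast hw0.ne')]
      rw [h3] at h2
      rw [h2]
      ring
    unfold vz
    rw [hs1, hs2, ma_uz_cons, if_pos h1, ha]
    ring
  · have h2 : (1 + aeval z (pA w d)) * (vz z ws (d :: L) + vz z ws L) = 0 := by
      by_cases h3 : z ^ d = 1
      · have h4 : 1 + aeval z (pA w d) = 0 := by
          rw [← aeval_pC z hw0 hwd.2, ma_pC]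
          have h5 : ∑ b ∈ Finset.range (d / w), z ^ (b * w) =
              ∑ b ∈ Finset.range (d / w), (z ^ w) ^ b := by
            refine Finset.sum_congr rfl fun b _ => ?_
            rw [← pow_mul, mul_comm]
          rw [h5, geom_sum_eq h1, ← pow_mul, Nat.mul_div_cancel' hwd.1, h3, sub_self, zero_div]
        rw [h4, zero_mul]
      · have hL : L ≠ [] := by
          rintro rfl
          apply h3
          have h4 : d = e := by simpa using he
          rw [h4]
          exact hz
        have hws : ∀ w' ∈ ws, z ^ w' ≠ 1 := by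
          intro w' hw' h4
          apply h3
          obtain ⟨k, hk⟩ := (hd w' (List.mem_cons_of_mem _ hw') d List.mem_cons_self).1
          rw [hk, pow_mul, h4, one_pow]
        have h4 : vz z ws (d :: L) + vz z ws L = 0 := by
          unfold vz
          rw [hs2, ma_uz_zero z ws hws _ (List.cons_ne_nil _ _), ma_uz_zero z ws hws _ hL]
          ring
        rw [h4, mul_zero]
    have h3 : vz z (w :: ws) (d :: L) = -vz z ws (d :: L) := by
      unfold vz
      rw [hs1, hs2, ma_uz_cons, if_neg h1]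
      ring
    rw [h3]
    linear_combination -h2

theorem aeval_pW {z : ℂ} {e : ℕ} (hz : z ^ e = 1) (ws : List ℕ) (d : ℕ) (L : List ℕ)
    (he : (d :: L).getLast (List.cons_ne_nil _ _) = e) (hw : ∀ x ∈ ws, 0 < x)
    (hd : ∀ x ∈ ws, ∀ y ∈ d :: L, x ∣ y ∧ x ≤ y) :
    aeval z (pW ws (d :: L)) = vz z ws (d :: L) + vz z ws L := by
  induction ws generalizing d L with
  | nil =>
    cases L with
    | nil =>
      rw [vz_nil]
      unfold vz
      rw [ma_uz_nil_cons]
      simp [pW]
    | cons d' L =>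
      unfold vz
      rw [ma_uz_nil_cons, ma_uz_nil_cons]
      simp only [pW, map_zero, List.length_cons, List.length_nil]
      ring
  | cons w ws ih =>
    have hw' : ∀ x ∈ ws, 0 < x := fun x hx => hw x (List.mem_cons_of_mem _ hx)
    have hd' : ∀ x ∈ ws, ∀ y ∈ d :: L, x ∣ y ∧ x ≤ y := fun x hx =>
      hd x (List.mem_cons_of_mem _ hx)
    have h1 := ih d L he hw' hd'
    have h2 := vz_cons hz he hw hd
    cases L with
    | nil =>
      rw [vz_nil] at h1 h2 ⊢
      simp only [pW, map_mul]
      rw [h1, h2]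
      ring
    | cons d' L =>
      have he2 : (d' :: L).getLast (List.cons_ne_nil _ _) = e := by
        rw [← he]
        exact (List.getLast_cons (List.cons_ne_nil _ _)).symm
      have hd2 : ∀ x ∈ w :: ws, ∀ y ∈ d' :: L, x ∣ y ∧ x ≤ y := fun x hx y hy =>
        hd x hx y (List.mem_cons_of_mem _ hy)
      have h3 := ih d' L he2 hw' fun x hx y hy => hd' x hx y (List.mem_cons_of_mem _ hy)
      have h4 := vz_cons hz he2 hw hd2
      have h5 := aeval_pC z (hw w List.mem_cons_self)
        (hd w List.mem_cons_self d' (List.mem_cons_of_mem _ List.mem_cons_self)).2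
      simp only [pW, map_mul, map_add]
      rw [h1, h2, h3, h4, h5]
      ring

theorem aeval_pV {z : ℂ} {e : ℕ} (hz : z ^ e = 1) (ws : List ℕ) (L : List ℕ)
    (he : ∀ h : L ≠ [], L.getLast h = e) (hw : ∀ x ∈ ws, 0 < x)
    (hd : ∀ x ∈ ws, ∀ y ∈ L, x ∣ y ∧ x ≤ y) (hlen : L.length ≤ ws.length) :
    aeval z (pV ws L) = vz z ws L := by
  induction ws generalizing L with
  | nil =>
    have h1 : L = [] := List.eq_nil_of_length_eq_zero (by simpa using hlen)
    rw [h1, vz_nil]
    simp [pV]
  | cons w ws ih =>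
    cases L with
    | nil =>
      rw [vz_nil]
      simp [pV]
    | cons d L =>
      have hw' : ∀ x ∈ ws, 0 < x := fun x hx => hw x (List.mem_cons_of_mem _ hx)
      have h1 := aeval_pW hz ws d L (he (List.cons_ne_nil _ _)) hw'
        fun x hx => hd x (List.mem_cons_of_mem _ hx)
      have h2 := ih L (fun h => by
          rw [← he (List.cons_ne_nil _ _)]
          exact (List.getLast_cons h).symm) hw'
        (fun x hx y hy => hd x (List.mem_cons_of_mem _ hx) y (List.mem_cons_of_mem _ hy))
        (by simpa using hlen)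
      have h3 := vz_cons hz (he (List.cons_ne_nil _ _)) hw hd
      simp only [pV, map_mul, map_add]
      rw [h1, h2, h3]
      ring

end DW
end MotMono
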