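import Pool.Agent.Lib.MP_4e5fcd_ag.DW.Base

/-!
# DW-MCW: the property of `IsEulerCharW` implies that of `IsEulerCharC`

Induction on the number of variables, with generic hyperplane sections.
-/

open MvPolynomial

namespace MotMono
namespace DW

open LF HC

/-- the equation of a hyperplane -/
noncomputable def hyp {N : ℕ} (h : Fin N → ℂ) : MvPolynomial (Fin (N + 1)) ℂ :=
  X (Fin.last N) - ∑ l, C (h l) * X l.castSucc

theorem eval_hyp {N : ℕ} (h : Fin N → ℂ) (z : Fin (N + 1) → ℂ) :
    eval z (hyp h) = z (Fin.last N) - ∑ l, h l * z l.castSucc := by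
  unfold hyp
  simp

theorem homog_hyp {N : ℕ} (h : Fin N → ℂ) : (hyp h).IsHomogeneous 1 := by
  unfold hyp
  refine (isHomogeneous_X ℂ _).sub (IsHomogeneous.sum _ _ _ fun l _ => ?_)
  have h2 := (isHomogeneous_C (Fin (N + 1)) (h l)).mul (isHomogeneous_X ℂ l.castSucc)
  rwa [zero_add] at h2

theorem pderiv_hyp_last {N : ℕ} (h : Fin N → ℂ) (z : Fin (N + 1) → ℂ) :
    eval z (pderiv (Fin.last N) (hyp h)) = 1 := by
  classical
  unfold hyp
  rw [map_sub, pderiv_X_self, map_sum, Finset.sum_eq_zero, sub_zero, map_one]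
  intro l _
  rw [pderiv_mul, pderiv_C, pderiv_X_of_ne (Fin.castSucc_lt_last l).ne]
  simp

theorem pderiv_hyp_cast {N : ℕ} (h : Fin N → ℂ) (z : Fin (N + 1) → ℂ) (k : Fin N) :
    eval z (pderiv k.castSucc (hyp h)) = - h k := by
  classical
  unfold hyp
  rw [map_sub, pderiv_X_of_ne (Fin.castSucc_lt_last k).ne', map_sum, Finset.sum_eq_single k]
  · rw [pderiv_mul, pderiv_C, pderiv_X_self]
    simp
  · intro l _ hl
    rw [pderiv_mul, pderiv_C, pderiv_X_of_ne (fun h2 => hl (Fin.castSucc_injective _ h2))]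
    simp
  · intro hl
    exact absurd (Finset.mem_univ _) hl

/-- the point of the hyperplane is determined by its first coordinates -/
theorem eq_pt {N : ℕ} {h : Fin N → ℂ} {z : Fin (N + 1) → ℂ} (hz : eval z (hyp h) = 0) :
    z = pt h (fun l => z l.castSucc) := by
  rw [eval_hyp] at hz
  funext i
  refine Fin.lastCases ?_ (fun l => ?_) i
  · rw [pt_last]
    exact sub_eq_zero.1 hz
  · rw [pt_cast]

theorem ns_hyp {N c : ℕ} {F : Fin c → MvPolynomial (Fin (N + 1)) ℂ} {h : Fin N → ℂ}
    (hs : NS fun j => sub h (F j)) :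
    NS (Fin.cons (hyp h) F : Fin (c + 1) → MvPolynomial (Fin (N + 1)) ℂ) := by
  intro z hz0 hz μ hμ
  have h0 : eval z (hyp h) = 0 := hz 0
  have hF : ∀ j, eval z (F j) = 0 := fun j => hz j.succ
  set x : Fin N → ℂ := fun l => z l.castSucc with hx
  have hzx : z = pt h x := eq_pt h0
  have hx0 : x ≠ 0 := by
    intro h1
    apply hz0
    rw [hzx, h1]
    funext i
    refine Fin.lastCases ?_ (fun l => ?_) i
    · rw [pt_last]
      simp
    · rw [pt_cast]
      rfl
  have hl : μ 0 + ∑ j, μ j.succ * eval z (pderiv (Fin.last N) (F j)) = 0 := by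
    have h1 := hμ (Fin.last N)
    rw [Fin.sum_univ_succ] at h1
    simp only [Fin.cons_zero, Fin.cons_succ, pderiv_hyp_last, mul_one] at h1
    exact h1
  have hk : ∀ k : Fin N,
      μ 0 * (- h k) + ∑ j, μ j.succ * eval z (pderiv k.castSucc (F j)) = 0 := by
    intro k
    have h1 := hμ k.castSucc
    rw [Fin.sum_univ_succ] at h1
    simp only [Fin.cons_zero, Fin.cons_succ, pderiv_hyp_cast] at h1
    exact h1
  have h2 : (fun j => μ (Fin.succ j)) = 0 := by
    refine hs x hx0 (fun j => ?_) _ fun l => ?_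
    · rw [HC.eval_sub, ← hzx]
      exact hF j
    · have e1 : ∀ j, μ (Fin.succ j) * eval x (pderiv l (sub h (F j))) =
          μ j.succ * eval z (pderiv l.castSucc (F j)) +
            h l * (μ j.succ * eval z (pderiv (Fin.last N) (F j))) := by
        intro j
        rw [pderiv_sub, ← hzx]
        ring
      rw [Finset.sum_congr rfl fun j _ => e1 j, Finset.sum_add_distrib, ← Finset.mul_sum]
      linear_combination hk l + h l * hl
  have h3 : μ 0 = 0 := by
    have h4 : ∑ j, μ j.succ * eval z (pderiv (Fin.last N) (F j)) = 0 := by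
      refine Finset.sum_eq_zero fun j _ => ?_
      have h5 := congrFun h2 j
      simp only [Pi.zero_apply] at h5
      rw [h5, zero_mul]
    rw [h4, add_zero] at hl
    exact hl
  funext j
  refine Fin.cases ?_ (fun k => ?_) j
  · exact h3
  · exact congrFun h2 k

theorem cls_hyp {N c : ℕ} (F : Fin c → MvPolynomial (Fin (N + 1)) ℂ) (h : Fin N → ℂ) :
    cls (PV (Fin.cons (hyp h) F : Fin (c + 1) → MvPolynomial (Fin (N + 1)) ℂ)) =
      cls (PV fun j => sub h (F j)) := by
  refine cls_iso (constr_PV _) (constr_PV _) ?_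
  have hmem : ∀ z, z ∈ PV (Fin.cons (hyp h) F : Fin (c + 1) → MvPolynomial (Fin (N + 1)) ℂ) →
      eval z (hyp h) = 0 ∧ ∀ j, eval z (F j) = 0 := fun z hz =>
    ⟨hz.2 0, fun j => hz.2 j.succ⟩
  refine ⟨fun z l => z l.castSucc, fun x => pt h x, fun l => regFun_coord _ _, fun i => ?_,
    fun z hz => ?_, fun x hx => ?_, fun z hz => ?_, fun x hx => ?_⟩
  · refine Fin.lastCases ?_ (fun l => ?_) i
    · refine (regFun_poly (PV fun j => sub h (F j)) (∑ l, C (h l) * X l)).congr fun x _ => ?_
      show _ = pt h x (Fin.last N)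
      rw [pt_last]
      simp
    · refine (regFun_coord (PV fun j => sub h (F j)) l).congr fun x _ => ?_
      show _ = pt h x l.castSucc
      rw [pt_cast]
  · obtain ⟨h1, h2⟩ := hmem z hz
    have h3 := eq_pt h1
    refine ⟨?_, fun j => ?_⟩
    · rcases (nrm_succ z).1 hz.1 with h4 | ⟨h4, h5⟩
      · exact h4
      · exfalso
        rw [eval_hyp, h5, Finset.sum_eq_zero (fun l _ => by rw [h4 l, mul_zero]), sub_zero] at h1
        exact one_ne_zero h1
    · show eval (fun l => z l.castSucc) (sub h (F j)) = 0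
      rw [HC.eval_sub, ← h3]
      exact h2 j
  · refine ⟨(nrm_succ _).2 (Or.inl ?_), fun j => ?_⟩
    · have e : (fun l => pt h x (Fin.castSucc l)) = x := funext fun l => pt_cast h x l
      rw [e]
      exact hx.1
    · refine Fin.cases ?_ (fun k => ?_) j
      · show eval (pt h x) (hyp h) = 0
        rw [eval_hyp, pt_last, sub_eq_zero]
        exact Finset.sum_congr rfl fun l _ => by rw [pt_cast]
      · show eval (pt h x) (F k) = 0
        rw [← HC.eval_sub]
        exact hx.2 k
  · exact (eq_pt (hmem z hz).1).symm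
  · exact funext fun l => pt_cast h x l

theorem isEulerCharC_of_W {χ : K0 →+* ℤ} (hχ : IsEulerCharW χ) : IsEulerCharC χ := by
  refine { toIsEulerCharF := hχ.toIsEulerCharF, ci := ?_ }
  intro N
  induction N with
  | zero =>
    intro c δ F G _ _ _ _ _
    have e : ∀ F : Fin c → MvPolynomial (Fin 0) ℂ, PV F = ∅ := by
      intro F
      ext x
      simp only [PV, Set.mem_ofPred_eq, Set.mem_empty_iff_false, iff_false, not_and]
      rintro ⟨i, -⟩
      exact i.elim0
    rw [e F, e G]
  | succ N ih =>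
    intro c δ F G hδ hF hG hNF hNG
    obtain ⟨h, hh⟩ := exists_hyp F
    obtain ⟨k, hk⟩ := exists_hyp G
    have h1 : NS fun j => sub h (F j) := ns_sub hNF hh
    have h2 : NS fun j => sub k (G j) := ns_sub hNG hk
    have h3 := ns_hyp h1
    have h4 := ns_hyp h2
    have h5 := ih c δ _ _ hδ (fun j => homog_sub h (hF j)) (fun j => homog_sub k (hG j)) h1 h2
    have hδ' : ∀ j, 0 < (Fin.cons 1 δ : Fin (c + 1) → ℕ) j :=
      fun j => Fin.cases Nat.one_pos hδ j
    have hF' : ∀ j, ((Fin.cons (hyp h) F : Fin (c + 1) → MvPolynomial (Fin (N + 1)) ℂ) j).IsHomogeneous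
        ((Fin.cons 1 δ : Fin (c + 1) → ℕ) j) := fun j => Fin.cases (homog_hyp h) hF j
    have hG' : ∀ j, ((Fin.cons (hyp k) G : Fin (c + 1) → MvPolynomial (Fin (N + 1)) ℂ) j).IsHomogeneous
        ((Fin.cons 1 δ : Fin (c + 1) → ℕ) j) := fun j => Fin.cases (homog_hyp k) hG j
    have h6 := hχ.wci (N + 1) c (fun _ => 1) (Fin.cons 1 δ) (Fin.cons (hyp h) F)
      (Fin.cons (hyp k) G) (fun _ => Nat.one_pos) hδ' hF' hG' h3 hNF h4 hNG
    rw [chi_fibre hχ.toIsEulerCharF hδ' hF', chi_fibre hχ.toIsEulerCharF hδ' hG', cls_hyp, cls_hyp,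
      h5] at h6
    simp only [Fin.cons_zero, Fin.tail_cons] at h6
    push_cast at h6
    linarith

end DW
end MotMono
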