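import Pool.Agent.Lib.MP_4e5fcd_ag.DW.RDef

/-!
# DW-MPos: a monomial of the path polynomial with exponent in a given class

PROOF.
`coeff_mul_ne`: `Polynomial.coeff_mul`, the term `(l, l')` of the antidiagonal is not `0` and all terms are
natural numbers.
`coeff_pA`: `(pA w d).coeff (b * w) ≠ 0` for `1 ≤ b < d / w` (in `ℕ[X]`, all terms are `≥ 0`, the term `b` of the
sum is `1`); `coeff_pC`: the same for `b < d / w`.
`exists_pW`: induction on `ws`. `ws = []`: `L.length ≤ 0` contradicts `L ≠ []`. Let `ws = w :: vs`.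
(a) `L.length ≤ vs.length`: use the term `pA w d * pW vs (d :: L)` of `pW` (`L = d' :: L'`; all coefficients are
`≥ 0`), the exponent `d - w = (d / w - 1) * w` of `pA` (`2 w ≤ d`) and the induction hypothesis for `vs`, `t + (d - w)`:
for `x ∈ vs`, `x ∣ t - (w + vs.sum)` and `x ∣ d`. (b) `L.length = vs.length + 1`: use the term
`pC w d' * pW vs (d' :: L')`, `L = d' :: L'`. If `L' ≠ []` use the exponent `d' - w = (d' / w - 1) * w` and the
induction hypothesis for `vs`, `d'`, `L'`. If `L' = []` then `vs = []`, `d' = e`, `pW [] [e] = 1`; `w ∣ t` (as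
`w ∣ t - w`), `t = w t'`; use the exponent `b * w`, `b = (-t') mod (e / w)`, `e = (e / w) * w`.
`exists_pV`: `L = []`: `pV (w :: vs) [e] = pA w e * pW vs [e] + 0`, and `(pW vs [e]).coeff (∑ (e - x)) ≠ 0` by induction
on `vs`; the sum `q + l` is `ws.length * e`. `L = d :: L'`: the list of the degrees is `d :: (L' ++ [e])`; use the term
`pA w d * pW vs (d :: (L' ++ [e]))`, the exponent `d - w` and `exists_pW` with `t = q + (d - w)`.
-/

open Polynomial

namespace MotMono
namespace DW

theorem coeff_mul_ne {p q : ℕ[X]} {l l' : ℕ} (h : p.coeff l ≠ 0) (h' : q.coeff l' ≠ 0) :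
    (p * q).coeff (l + l') ≠ 0 := by
  rw [Polynomial.coeff_mul]
  intro h0
  rw [Finset.sum_eq_zero_iff] at h0
  have := h0 (l, l') (by simp)
  simp only at this
  rcases Nat.mul_eq_zero.mp this with h1 | h1
  · exact h h1
  · exact h' h1

private theorem coeff_sum_ne (s : Finset ℕ) (w b : ℕ) (hb : b ∈ s) :
    (∑ b ∈ s, (X : ℕ[X]) ^ (b * w)).coeff (b * w) ≠ 0 := by
  rw [Polynomial.finsetSum_coeff]
  intro h0
  rw [Finset.sum_eq_zero_iff] at h0
  have := h0 b hb
  simp at this

private theorem coeff_pA {w d : ℕ} (hw : 0 < w) (hd : w ∣ d) (h2 : 2 * w ≤ d) :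
    (pA w d).coeff (d - w) ≠ 0 := by
  obtain ⟨k, rfl⟩ := hd
  have hk : 2 ≤ k := by
    by_contra hk
    have : k ≤ 1 := by omega
    have : w * k ≤ w * 1 := Nat.mul_le_mul_left w this
    omega
  have h1 : w * k - w = (k - 1) * w := by
    rw [Nat.sub_mul, one_mul, mul_comm]
  rw [h1]
  unfold pA
  apply coeff_sum_ne
  rw [Nat.mul_div_cancel_left k hw, Finset.mem_Ico]
  omega

private theorem coeff_pC {w d b : ℕ} (hb : b < d / w) :
    (pC w d).coeff (b * w) ≠ 0 := by
  unfold pC
  apply coeff_sum_ne
  rwa [Finset.mem_range]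

private theorem coeff_pC' {w d : ℕ} (hw : 0 < w) (hd : w ∣ d) (h2 : 2 * w ≤ d) :
    (pC w d).coeff (d - w) ≠ 0 := by
  obtain ⟨k, rfl⟩ := hd
  have hk : 2 ≤ k := by
    by_contra hk
    have : k ≤ 1 := by omega
    have : w * k ≤ w * 1 := Nat.mul_le_mul_left w this
    omega
  have h1 : w * k - w = (k - 1) * w := by
    rw [Nat.sub_mul, one_mul, mul_comm]
  rw [h1]
  apply coeff_pC
  rw [Nat.mul_div_cancel_left k hw]
  omega

private theorem add_left_ne {p q : ℕ[X]} {l : ℕ} (h : p.coeff l ≠ 0) : (p + q).coeff l ≠ 0 := by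
  rw [Polynomial.coeff_add]; omega

private theorem add_right_ne {p q : ℕ[X]} {l : ℕ} (h : q.coeff l ≠ 0) : (p + q).coeff l ≠ 0 := by
  rw [Polynomial.coeff_add]; omega

theorem exists_pW {e : ℕ} (ws : List ℕ) (d : ℕ) (L : List ℕ) (hL : L ≠ []) (he : L.getLast hL = e)
    (hlen : L.length ≤ ws.length) (hw : ∀ x ∈ ws, 0 < x)
    (hd : ∀ x ∈ ws, ∀ y ∈ d :: L, x ∣ y ∧ 2 * x ≤ y) (t : ℤ)
    (ht : ∀ x ∈ ws, (x : ℤ) ∣ t - (ws.sum : ℤ)) :
    ∃ l : ℕ, (pW ws (d :: L)).coeff l ≠ 0 ∧ (e : ℤ) ∣ t + l := by
  induction ws generalizing d L t with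
  | nil =>
    exfalso
    apply hL
    exact List.length_eq_zero_iff.mp (Nat.le_zero.mp hlen)
  | cons w vs ih =>
    have hw0 : 0 < w := hw w (by simp)
    have hwv : ∀ x ∈ vs, 0 < x := fun x hx => hw x (by simp [hx])
    cases L with
    | nil => exact absurd rfl hL
    | cons d' L' =>
      have hwd : w ∣ d ∧ 2 * w ≤ d := hd w (by simp) d (by simp)
      have hwd' : w ∣ d' ∧ 2 * w ≤ d' := hd w (by simp) d' (by simp)
      by_cases hc : (d' :: L').length ≤ vs.length
      · obtain ⟨l, hl, hel⟩ := ih d (d' :: L') hL he hc hwv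
          (fun x hx y hy => hd x (by simp [hx]) y hy) (t + ((d : ℤ) - w)) (by
            intro x hx
            have h1 := ht x (by simp [hx])
            have h2 : (x : ℤ) ∣ d := by exact_mod_cast (hd x (by simp [hx]) d (by simp)).1
            have h3 : t + ((d : ℤ) - w) - ((vs.sum : ℕ) : ℤ) = (t - (((w :: vs).sum : ℕ) : ℤ)) + d := by
              rw [List.sum_cons]; push_cast; ring
            rw [h3]
            exact dvd_add h1 h2)
        refine ⟨(d - w) + l, ?_, ?_⟩
        · have : pW (w :: vs) (d :: d' :: L') =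
            pA w d * pW vs (d :: d' :: L') + pC w d' * pW vs (d' :: L') := by
            rw [pW]
          rw [this]
          exact add_left_ne (coeff_mul_ne (coeff_pA hw0 hwd.1 hwd.2) hl)
        · have h4 : t + (((d - w + l : ℕ)) : ℤ) = t + ((d : ℤ) - w) + l := by
            have : w ≤ d := by omega
            push_cast [Nat.cast_sub this]
            ring
          rw [h4]; exact hel
      · have hlen' : L'.length = vs.length := by
          simp only [List.length_cons] at hc hlen
          omega
        cases L' with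
        | nil =>
          have hvs : vs = [] := List.length_eq_zero_iff.mp (by rw [← hlen']; rfl)
          subst hvs
          have hee : d' = e := by simpa using he
          subst hee
          have h1 := ht w (by simp)
          have h2 : (w : ℤ) ∣ t := by
            have h3 : t = (t - (([w].sum : ℕ) : ℤ)) + w := by simp
            rw [h3]
            exact dvd_add h1 (dvd_refl _)
          obtain ⟨t', rfl⟩ := h2
          obtain ⟨⟨k, rfl⟩, hk2⟩ := hwd'
          have hk : 0 < k := by
            rcases Nat.eq_zero_or_pos k with h0 | h0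
            · subst h0; omega
            · exact h0
          have hkz : (0 : ℤ) < k := by exact_mod_cast hk
          have hb0 : 0 ≤ (-t') % (k : ℤ) := Int.emod_nonneg _ (ne_of_gt hkz)
          have hb1 : (-t') % (k : ℤ) < k := Int.emod_lt_of_pos _ hkz
          obtain ⟨b, hb⟩ := Int.eq_ofNat_of_zero_le hb0
          have hbk : b < k := by
            rw [hb] at hb1; exact_mod_cast hb1
          refine ⟨b * w, ?_, ?_⟩
          · have : pW [w] [d, w * k] = pA w d * pW [] [d, w * k] + pC w (w * k) * pW [] [w * k] := by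
              conv_lhs => rw [pW]
            rw [this]
            have h1 : pW [] [w * k] = 1 := by rw [pW]
            rw [h1, mul_one]
            apply add_right_ne
            apply coeff_pC
            rw [Nat.mul_div_cancel_left k hw0]
            exact hbk
          · have h5 : (k : ℤ) ∣ t' + b := by
              have h6 : (k : ℤ) ∣ (-t') - (-t') % (k : ℤ) := Int.dvd_self_sub_emod
              rw [hb] at h6
              have h7 : t' + b = -((-t') - (b : ℤ)) := by ring
              rw [h7]
              exact (dvd_neg).mpr h6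
            have h8 : (w : ℤ) * t' + ((b * w : ℕ) : ℤ) = w * (t' + b) := by push_cast; ring
            rw [h8]
            push_cast
            exact mul_dvd_mul_left _ h5
        | cons d'' L'' =>
          have he' : (d'' :: L'').getLast (by simp) = e := by
            rw [← he]; simp
          obtain ⟨l, hl, hel⟩ := ih d' (d'' :: L'') (by simp) he' (le_of_eq hlen') hwv
            (fun x hx y hy => hd x (by simp [hx]) y (List.mem_cons_of_mem _ hy)) (t + ((d' : ℤ) - w)) (by
              intro x hx
              have h1 := ht x (by simp [hx])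
              have h2 : (x : ℤ) ∣ d' := by exact_mod_cast (hd x (by simp [hx]) d' (by simp)).1
              have h3 : t + ((d' : ℤ) - w) - ((vs.sum : ℕ) : ℤ) =
                  (t - (((w :: vs).sum : ℕ) : ℤ)) + d' := by
                rw [List.sum_cons]; push_cast; ring
              rw [h3]
              exact dvd_add h1 h2)
          refine ⟨(d' - w) + l, ?_, ?_⟩
          · have : pW (w :: vs) (d :: d' :: d'' :: L'') =
              pA w d * pW vs (d :: d' :: d'' :: L'') + pC w d' * pW vs (d' :: d'' :: L'') := by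
              rw [pW]
            rw [this]
            exact add_right_ne (coeff_mul_ne (coeff_pC' hw0 hwd'.1 hwd'.2) hl)
          · have h4 : t + (((d' - w + l : ℕ)) : ℤ) = t + ((d' : ℤ) - w) + l := by
              have : w ≤ d' := by omega
              push_cast [Nat.cast_sub this]
              ring
            rw [h4]; exact hel

private theorem exists_pW_single {e : ℕ} (vs : List ℕ) (hw : ∀ x ∈ vs, 0 < x)
    (hd : ∀ x ∈ vs, x ∣ e ∧ 2 * x ≤ e) :
    ∃ l : ℕ, (pW vs [e]).coeff l ≠ 0 ∧ (vs.sum : ℤ) + l = vs.length * e := by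
  induction vs with
  | nil =>
    refine ⟨0, ?_, ?_⟩
    · have h1 : pW [] [e] = 1 := by rw [pW]
      rw [h1]; simp
    · simp
  | cons v us ih =>
    obtain ⟨l, hl, hs⟩ := ih (fun x hx => hw x (by simp [hx])) (fun x hx => hd x (by simp [hx]))
    have hv := hd v (by simp)
    refine ⟨(e - v) + l, ?_, ?_⟩
    · have : pW (v :: us) [e] = pA v e * pW us [e] := by rw [pW]
      rw [this]
      exact coeff_mul_ne (coeff_pA (hw v (by simp)) hv.1 hv.2) hl
    · have hve : v ≤ e := by omega
      rw [List.sum_cons, List.length_cons, Nat.cast_add, Nat.cast_add, Nat.cast_add, Nat.cast_sub hve,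
        Nat.cast_one]
      linarith

theorem exists_pV {e : ℕ} (ws L : List ℕ) (hlen : L.length + 1 ≤ ws.length) (hw : ∀ x ∈ ws, 0 < x)
    (hd : ∀ x ∈ ws, ∀ y ∈ L ++ [e], x ∣ y ∧ 2 * x ≤ y) :
    ∃ l : ℕ, (pV ws (L ++ [e])).coeff l ≠ 0 ∧ (e : ℤ) ∣ ((ws.sum : ℤ) - L.sum) + l := by
  cases ws with
  | nil => simp at hlen
  | cons w vs =>
    have hw0 : 0 < w := hw w (by simp)
    have hwv : ∀ x ∈ vs, 0 < x := fun x hx => hw x (by simp [hx])
    cases L with
    | nil =>
      have hwe := hd w (by simp) e (by simp)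
      obtain ⟨l, hl, hs⟩ := exists_pW_single (e := e) vs hwv
        (fun x hx => hd x (by simp [hx]) e (by simp))
      refine ⟨(e - w) + l, ?_, ?_⟩
      · have : pV (w :: vs) ([] ++ [e]) = pA w e * pW vs [e] + pV vs [] := by
          rw [List.nil_append]
          conv_lhs => rw [pV]
        rw [this]
        exact add_left_ne (coeff_mul_ne (coeff_pA hw0 hwe.1 hwe.2) hl)
      · have hve : w ≤ e := by omega
        refine ⟨(vs.length : ℤ) + 1, ?_⟩
        rw [List.sum_cons, List.sum_nil, Nat.cast_add, Nat.cast_add, Nat.cast_sub hve, Nat.cast_zero]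
        linarith
    | cons d L' =>
      have hwd := hd w (by simp) d (by simp)
      obtain ⟨l, hl, hel⟩ := exists_pW (e := e) vs d (L' ++ [e]) (by simp) (by simp)
        (by
          rw [List.length_append, List.length_singleton]
          simp only [List.length_cons] at hlen
          omega) hwv
        (fun x hx y hy => hd x (by simp [hx]) y (by simpa using hy)) ((vs.sum : ℤ) - L'.sum) (by
          intro x hx
          have h1 : (x : ℕ) ∣ L'.sum := List.dvd_sum (fun y hy =>
            (hd x (by simp [hx]) y (by simp [hy])).1)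
          have h2 : (x : ℤ) ∣ (L'.sum : ℤ) := by exact_mod_cast h1
          have h3 : ((vs.sum : ℕ) : ℤ) - (L'.sum : ℕ) - ((vs.sum : ℕ) : ℤ) = -((L'.sum : ℕ) : ℤ) := by
            ring
          rw [h3]
          exact (dvd_neg).mpr h2)
      refine ⟨(d - w) + l, ?_, ?_⟩
      · have : pV (w :: vs) ((d :: L') ++ [e]) =
          pA w d * pW vs (d :: (L' ++ [e])) + pV vs (L' ++ [e]) := by
          rw [List.cons_append, pV]
        rw [this]
        exact add_left_ne (coeff_mul_ne (coeff_pA hw0 hwd.1 hwd.2) hl)
      · have hve : w ≤ d := by omega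
        have h4 : (((w :: vs).sum : ℕ) : ℤ) - (((d :: L').sum : ℕ) : ℤ) + ((d - w + l : ℕ) : ℤ) =
            ((vs.sum : ℕ) : ℤ) - ((L'.sum : ℕ) : ℤ) + l := by
          rw [List.sum_cons, List.sum_cons]
          push_cast [Nat.cast_sub hve]
          ring
        rw [h4]
        exact hel

end DW
end MotMono
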