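import Pool.Agent.Lib.MP_4e5fcd_ag.DW.MPerm
import Pool.Agent.Lib.MP_4e5fcd_ag.DW.MAlt
import Pool.Agent.Lib.MP_4e5fcd_ag.DW.MPos

/-!
# DW-MSum: the signed count is not zero

PROOF.  Let `ζ = exp (2πi / e)`, a primitive `e`-th root of unity, `z = ζ ^ m`. `z ^ w i = 1 ↔ e ∣ m * w i`
(`IsPrimitiveRoot.pow_eq_one_iff_dvd`). With `l = List.finRange N`, `ws = l.map w` and `D = L ++ [e]`:
`UU w (SS w e m) (e :: L) = UU w (SS w e m) D` (`UU_perm`) `= uz z ws D` (`UU_uz`), and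
`uz z ws D = 1 + (-1)^(N + D.length) * aeval z (pV ws D)` (`aeval_pV`, definition of `vz`; `(-1)^k * (-1)^k = 1`).
`exp (2πi q m / e) = ζ ^ (q m)` (zpow). So the sum over `m ∈ Icc 1 e` is
`∑ ζ^(q m) + (-1)^… ∑_m ζ^(q m) ∑_l coeff l * ζ^(m l)`. `∑_m (ζ^q)^m = 0`, as `e ∤ q` (`BH.sum_pow_icc` in
`SW/BH1.lean`: copy its proof). Exchange the sums: `∑_l coeff l * ∑_m (ζ^(q + l))^m = e * ∑_{l, e ∣ q + l} coeff l`, a
positive integer times `e` by `exists_pV` (`(List.map w l).sum = ∑ i, w i`).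
-/

open Polynomial

namespace MotMono
namespace DW

private theorem ms_sum_pow_icc {e : ℕ} {z : ℂ} (hz : z ^ e = 1) :
    ∑ l ∈ Finset.Icc 1 e, z ^ l = if z = 1 then (e : ℂ) else 0 := by
  by_cases h : z = 1
  · rw [if_pos h, h]
    simp
  · rw [if_neg h]
    have h1 : ∑ l ∈ Finset.Icc 1 e, z ^ l = (∑ l ∈ Finset.range e, z ^ l) * z := by
      rw [Finset.sum_mul]
      symm
      refine Finset.sum_bij (fun a _ => a + 1) ?_ ?_ ?_ ?_
      · intro a ha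
        rw [Finset.mem_range] at ha
        rw [Finset.mem_Icc]
        omega
      · intro a _ b _ hab
        omega
      · intro b hb
        rw [Finset.mem_Icc] at hb
        exact ⟨b - 1, Finset.mem_range.2 (by omega), by omega⟩
      · intro a _
        rw [pow_succ]
    rw [h1, geom_sum_eq h, hz, sub_self, zero_div, zero_mul]

theorem sum_UU_ne {N : ℕ} {w : Fin N → ℕ} (hw : ∀ i, 0 < w i) {e : ℕ} (he : 0 < e) {L : List ℕ}
    (hd : ∀ i, ∀ y ∈ e :: L, w i ∣ y ∧ 2 * w i ≤ y) (hlen : L.length + 1 ≤ N) {q : ℤ}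
    (hq : q = ∑ i, (w i : ℤ) - (L.sum : ℤ)) (hqe : ¬ (e : ℤ) ∣ q) :
    ∑ m ∈ Finset.Icc 1 e, Complex.exp (2 * Real.pi * Complex.I * q * m / e) *
      ((UU w (SS w e m) (e :: L) : ℚ) : ℂ) ≠ 0 := by
  classical
  have heC : (e : ℂ) ≠ 0 := by exact_mod_cast he.ne'
  obtain ⟨ζ, hζd⟩ : ∃ ζ : ℂ, ζ = Complex.exp (2 * Real.pi * Complex.I / e) := ⟨_, rfl⟩
  have hζ : IsPrimitiveRoot ζ e := by
    rw [hζd]
    exact Complex.isPrimitiveRoot_exp e he.ne'
  have hζ0 : ζ ≠ 0 := by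
    rw [hζd]
    exact Complex.exp_ne_zero _
  obtain ⟨μ, hμd⟩ : ∃ μ : ℂ, μ = ζ ^ q := ⟨_, rfl⟩
  have hexp : ∀ m : ℕ, Complex.exp (2 * Real.pi * Complex.I * q * m / e) = μ ^ m := by
    intro m
    rw [hμd, hζd, ← Complex.exp_int_mul, ← Complex.exp_nat_mul]
    congr 1
    ring
  have hμe : μ ^ e = 1 := by
    rw [hμd, ← zpow_natCast, ← zpow_mul, mul_comm, zpow_mul, zpow_natCast, hζ.pow_eq_one, one_zpow]
  have hμζ : ∀ l : ℕ, μ * ζ ^ l = 1 ↔ (e : ℤ) ∣ q + l := by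
    intro l
    rw [hμd, ← zpow_natCast, ← zpow_add₀ hζ0]
    exact hζ.zpow_eq_one_iff_dvd (q + l)
  obtain ⟨ws, hws⟩ : ∃ ws : List ℕ, ws = (List.finRange N).map w := ⟨_, rfl⟩
  have hwsl : ws.length = N := by
    rw [hws, List.length_map, List.length_finRange]
  have hwmem : ∀ x ∈ ws, ∃ i, w i = x := by
    intro x hx
    rw [hws, List.mem_map] at hx
    obtain ⟨i, -, hi⟩ := hx
    exact ⟨i, hi⟩
  have hw' : ∀ x ∈ ws, 0 < x := by
    intro x hx
    obtain ⟨i, rfl⟩ := hwmem x hx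
    exact hw i
  have hd2 : ∀ x ∈ ws, ∀ y ∈ L ++ [e], x ∣ y ∧ 2 * x ≤ y := by
    intro x hx y hy
    obtain ⟨i, rfl⟩ := hwmem x hx
    refine hd i y ?_
    rw [List.mem_append, List.mem_singleton] at hy
    rw [List.mem_cons]
    exact hy.symm
  have hd1 : ∀ x ∈ ws, ∀ y ∈ L ++ [e], x ∣ y ∧ x ≤ y := by
    intro x hx y hy
    obtain ⟨h1, h2⟩ := hd2 x hx y hy
    exact ⟨h1, by omega⟩
  have hlen' : (L ++ [e]).length ≤ ws.length := by
    rw [List.length_append, hwsl]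
    simpa using hlen
  have hsum : (ws.sum : ℤ) = ∑ i, (w i : ℤ) := by
    rw [hws, ← Fin.sum_univ_def]
    push_cast
    rfl
  obtain ⟨s, hs⟩ : ∃ s : ℂ, s = (-1) ^ (ws.length + (L ++ [e]).length) := ⟨_, rfl⟩
  have hss : s * s = 1 := by
    rw [hs, ← mul_pow]
    norm_num
  obtain ⟨p, hp⟩ : ∃ p : ℕ[X], p = pV ws (L ++ [e]) := ⟨_, rfl⟩
  have hUU : ∀ m : ℕ, ((UU w (SS w e m) (e :: L) : ℚ) : ℂ) = 1 + s * aeval (ζ ^ m) p := by
    intro m
    have hz : (ζ ^ m) ^ e = 1 := by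
      rw [← pow_mul, mul_comm, pow_mul, hζ.pow_eq_one, one_pow]
    have hS : ∀ i, i ∈ SS w e m ↔ i ∈ List.finRange N ∧ (ζ ^ m) ^ w i = 1 := by
      intro i
      unfold SS
      rw [Finset.mem_filter, ← pow_mul, hζ.pow_eq_one_iff_dvd]
      simp
    have h1 := aeval_pV hz ws (L ++ [e]) (fun _ => by simp) hw' hd1 hlen'
    rw [← hp] at h1
    have h2 := UU_uz hw (ζ ^ m) (List.finRange N) (List.nodup_finRange N) (SS w e m) hS (L ++ [e])
    rw [← hws] at h2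
    rw [UU_perm w (SS w e m) (List.perm_append_singleton e L).symm, h2, h1]
    unfold vz
    rw [← hs, ← mul_assoc, hss]
    ring
  have hae : ∀ m : ℕ, aeval (ζ ^ m) p = ∑ l ∈ Finset.range (p.natDegree + 1), (p.coeff l : ℂ) * (ζ ^ l) ^ m := by
    intro m
    rw [Polynomial.aeval_eq_sum_range]
    refine Finset.sum_congr rfl fun l _ => ?_
    rw [nsmul_eq_mul, ← pow_mul, ← pow_mul, mul_comm m l]
  have hμ1 : μ ≠ 1 := by
    intro h
    apply hqe
    have := (hμζ 0).1 (by rw [pow_zero, mul_one]; exact h)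
    simpa using this
  have hmain : ∑ m ∈ Finset.Icc 1 e, Complex.exp (2 * Real.pi * Complex.I * q * m / e) *
      ((UU w (SS w e m) (e :: L) : ℚ) : ℂ) =
      s * (e * ((∑ l ∈ (Finset.range (p.natDegree + 1)).filter (fun l : ℕ => (e : ℤ) ∣ q + l),
        p.coeff l : ℕ) : ℂ)) := by
    have h1 : ∀ m ∈ Finset.Icc 1 e, Complex.exp (2 * Real.pi * Complex.I * q * m / e) *
        ((UU w (SS w e m) (e :: L) : ℚ) : ℂ) = μ ^ m +
          s * ∑ l ∈ Finset.range (p.natDegree + 1), (p.coeff l : ℂ) * (μ * ζ ^ l) ^ m := by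
      intro m _
      rw [hexp, hUU, hae, mul_add, mul_one]
      congr 1
      rw [← mul_assoc, mul_comm (μ ^ m) s, mul_assoc, Finset.mul_sum]
      congr 1
      refine Finset.sum_congr rfl fun l _ => ?_
      rw [mul_pow]
      ring
    rw [Finset.sum_congr rfl h1, Finset.sum_add_distrib, ms_sum_pow_icc hμe, if_neg hμ1, zero_add,
      ← Finset.mul_sum, Finset.sum_comm]
    congr 1
    have h2 : ∀ l ∈ Finset.range (p.natDegree + 1),
        ∑ m ∈ Finset.Icc 1 e, (p.coeff l : ℂ) * (μ * ζ ^ l) ^ m =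
          (e : ℂ) * (if (e : ℤ) ∣ q + l then (p.coeff l : ℂ) else 0) := by
      intro l _
      rw [← Finset.mul_sum, ms_sum_pow_icc]
      · by_cases h : (e : ℤ) ∣ q + l
        · rw [if_pos h, if_pos ((hμζ l).2 h)]
          ring
        · rw [if_neg h, if_neg fun h' => h ((hμζ l).1 h')]
          ring
      · rw [mul_pow, hμe, one_mul, ← pow_mul, mul_comm, pow_mul, hζ.pow_eq_one, one_pow]
    rw [Finset.sum_congr rfl h2, ← Finset.mul_sum, Nat.cast_sum, Finset.sum_filter]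
  rw [hmain]
  have hs0 : s ≠ 0 := by
    intro h
    rw [h, mul_zero] at hss
    exact zero_ne_one hss
  refine mul_ne_zero hs0 (mul_ne_zero heC ?_)
  rw [Nat.cast_ne_zero]
  obtain ⟨l, hl, hdl⟩ := exists_pV (e := e) ws L (by rw [hwsl]; exact hlen) hw' hd2
  rw [← hp] at hl
  refine (Finset.sum_pos' (fun _ _ => Nat.zero_le _) ⟨l, ?_, Nat.pos_of_ne_zero hl⟩).ne'
  rw [Finset.mem_filter, Finset.mem_range]
  refine ⟨Nat.lt_succ_of_le (Polynomial.le_natDegree_of_ne_zero hl), ?_⟩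
  rw [hsum] at hdl
  rw [hq]
  exact hdl

end DW
end MotMono
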