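import Pool.Agent.Lib.MP_4e5fcd_ag.DW.MFer
import Pool.Agent.Lib.MP_4e5fcd_ag.LF.X4

/-!
# DW-MXS: the coverings `x_i = z_i ^ (w i)`

PROOF.
`chi_ZS_XS`: let `W = {(z, x) : z ∈ ZS a δ T, x_i = z_i ^ (w i)} ⊆ ℂ^N × ℂ^N`; `cls W = cls (ZS a δ T)` (graph; compare
`cls_fam_none` in `SW/BH2.lean`), and over `x` the fibre of `W` is, if `x ∈ XS w a δ T`, the product of the sets of the roots
`z_i ^ (w i) = x_i` (`w i` points for `i ∈ T`, one point `0` for `i ∉ T`): `∏ i ∈ T, w i` points, and otherwise empty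
(`δ j / w i * w i = δ j`, so `x_i ^ (δ j / w i) = z_i ^ (δ j)`). Fubini (`hχ.fubini` with two sets, see `chi_XX` in
`SW/BH2.lean`, or a lemma of `LF/X4.lean` or of `HC/Ch.lean`: `x4_fub2`, `chi_fib_left`); number of points of a finite set:
`LF.chi_finset`; roots: `Polynomial.nthRoots`, `Complex.isPrimitiveRoot_exp` (see `card_rts`).
`chi_YY_fer`: `YY w (fer a …) (δ 0) m` is the disjoint union of the `XS w a δ T`, `T ⊆ SS w (δ 0) m` (`T` = support of `x`).
-/

open MvPolynomial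

namespace MotMono
namespace DW

open LF HC

/-- the set of the equations of a fibre -/
private theorem mxs_eqs {n N : ℕ} (a : Fin (n + 1) → Fin N → ℂ) (K : Fin (n + 1) → Fin N → ℕ)
    (T : Finset (Fin N)) :
    Constr {x : Fin N → ℂ | (∀ j : Fin n, ∑ i, a j.succ i * x i ^ K j.succ i = 0) ∧
      ∑ i, a 0 i * x i ^ K 0 i = 1 ∧ ∀ i, i ∉ T ↔ x i = 0} := by
  classical
  have h1 : {x : Fin N → ℂ | (∀ j : Fin n, ∑ i, a j.succ i * x i ^ K j.succ i = 0) ∧
      ∑ i, a 0 i * x i ^ K 0 i = 1 ∧ ∀ i, i ∉ T ↔ x i = 0} =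
      ((⋂ j : Fin n, {x | eval x (fer a K j.succ) = 0}) ∩ {x | eval x (fer a K 0) =
        eval x (1 : MvPolynomial (Fin N) ℂ)}) ∩
      ((⋂ i ∈ Tᶜ, {x | eval x (X i : MvPolynomial (Fin N) ℂ) = 0}) ∩
        ⋂ i ∈ T, {x | eval x (X i : MvPolynomial (Fin N) ℂ) = 0}ᶜ) := by
    ext x
    simp only [Set.mem_ofPred_eq, Set.mem_inter_iff, Set.mem_iInter, eval_fer, map_one, eval_X,
      Finset.mem_compl, Set.mem_compl_iff]
    constructor
    · rintro ⟨h2, h3, h4⟩
      exact ⟨⟨h2, h3⟩, fun i hi => (h4 i).1 hi, fun i hi h5 => (h4 i).2 h5 hi⟩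
    · rintro ⟨⟨h2, h3⟩, h4, h5⟩
      refine ⟨h2, h3, fun i => ⟨h4 i, fun h6 h7 => h5 i h7 h6⟩⟩
  rw [h1]
  exact ((constr_iInter fun j => Constr.zeroSet _).inter (constr_eq _ _)).inter
    ((constr_biInter_finset _ fun i _ => Constr.zeroSet (X i)).inter
      (constr_biInter_finset _ fun i _ => (Constr.zeroSet (X i)).compl))

theorem constr_XS {n N : ℕ} (w : Fin N → ℕ) (a : Fin (n + 1) → Fin N → ℂ) (δ : Fin (n + 1) → ℕ)
    (T : Finset (Fin N)) : Constr (XS w a δ T) :=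
  mxs_eqs a (fun j i => δ j / w i) T

private theorem mxs_constr_ZS {n N : ℕ} (a : Fin (n + 1) → Fin N → ℂ) (δ : Fin (n + 1) → ℕ)
    (T : Finset (Fin N)) : Constr (ZS a δ T) :=
  mxs_eqs a (fun j _ => δ j) T

/-- the graph of the covering -/
private def mxs_W {n N : ℕ} (w : Fin N → ℕ) (a : Fin (n + 1) → Fin N → ℂ) (δ : Fin (n + 1) → ℕ)
    (T : Finset (Fin N)) : Set (Fin N ⊕ Fin N → ℂ) :=
  {z | (fun i => z (Sum.inl i)) ∈ ZS a δ T ∧ ∀ i, z (Sum.inl i) ^ w i = z (Sum.inr i)}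

private theorem mxs_constr_W {n N : ℕ} (w : Fin N → ℕ) (a : Fin (n + 1) → Fin N → ℂ)
    (δ : Fin (n + 1) → ℕ) (T : Finset (Fin N)) : Constr (mxs_W w a δ T) := by
  have h1 : mxs_W w a δ T = {z | (fun i => z (Sum.inl i)) ∈ ZS a δ T} ∩
      ⋂ i : Fin N, {z | eval z (X (Sum.inl i) ^ w i : MvPolynomial (Fin N ⊕ Fin N) ℂ) =
        eval z (X (Sum.inr i))} := by
    ext z
    simp only [mxs_W, Set.mem_ofPred_eq, Set.mem_inter_iff, Set.mem_iInter, map_pow, eval_X]
  rw [h1]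
  exact ((mxs_constr_ZS a δ T).comp (Sum.inl : Fin N → Fin N ⊕ Fin N)).inter
    (constr_iInter fun i => constr_eq _ _)

private theorem mxs_cls_W {n N : ℕ} (w : Fin N → ℕ) (a : Fin (n + 1) → Fin N → ℂ)
    (δ : Fin (n + 1) → ℕ) (T : Finset (Fin N)) : cls (mxs_W w a δ T) = cls (ZS a δ T) := by
  refine cls_iso (mxs_constr_W w a δ T) (mxs_constr_ZS a δ T) ?_
  refine ⟨fun z i => z (Sum.inl i), fun x => Sum.elim x (fun i => x i ^ w i), ?_, ?_, ?_, ?_, ?_, ?_⟩
  · intro i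
    exact ⟨X (Sum.inl i), 1, fun x _ => ⟨by simp, by simp⟩⟩
  · rintro (i | i)
    · exact ⟨X i, 1, fun x _ => ⟨by simp, by simp⟩⟩
    · exact ⟨X i ^ w i, 1, fun x _ => ⟨by simp, by simp⟩⟩
  · intro z hz
    exact hz.1
  · intro x hx
    exact ⟨hx, fun i => rfl⟩
  · intro z hz
    funext k
    rcases k with i | i
    · rfl
    · exact hz.2 i
  · intro x _
    rfl

private theorem mxs_pow {δ w : ℕ} (h : w ∣ δ) (z : ℂ) : (z ^ w) ^ (δ / w) = z ^ δ := by
  rw [← pow_mul, Nat.mul_div_cancel' h]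

theorem chi_ZS_XS {χ : K0 →+* ℤ} (hχ : IsEulerCharF χ) {n N : ℕ} {w : Fin N → ℕ}
    (hw : ∀ i, 0 < w i) {δ : Fin (n + 1) → ℕ} (hδ : ∀ j, 0 < δ j) (hwδ : ∀ j i, w i ∣ δ j)
    (a : Fin (n + 1) → Fin N → ℂ) (T : Finset (Fin N)) :
    χ (cls (ZS a δ T)) = (∏ i ∈ T, (w i : ℤ)) * χ (cls (XS w a δ T)) := by
  classical
  rw [← mxs_cls_W w a δ T]
  refine chi_fib_const hχ (mxs_constr_W w a δ T) (constr_XS w a δ T) _ ?_ ?_
  · intro y hy
    obtain ⟨hy1, hy2, hy3⟩ := hy
    have h2 : {x : Fin N → ℂ | Sum.elim x y ∈ mxs_W w a δ T} =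
        (Fintype.piFinset (fun i => (Polynomial.nthRoots (w i) (y i)).toFinset) :
          Set (Fin N → ℂ)) := by
      ext x
      rw [Finset.mem_coe, Fintype.mem_piFinset]
      constructor
      · rintro ⟨-, hx3⟩ i
        rw [Multiset.mem_toFinset, Polynomial.mem_nthRoots (hw i)]
        exact hx3 i
      · intro hx
        have hx' : ∀ i, x i ^ w i = y i := fun i => by
          have := hx i
          rwa [Multiset.mem_toFinset, Polynomial.mem_nthRoots (hw i)] at this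
        have hp : ∀ j i, x i ^ δ j = y i ^ (δ j / w i) := fun j i => by
          rw [← hx' i, mxs_pow (hwδ j i)]
        refine ⟨⟨fun j => ?_, ?_, fun i => ?_⟩, hx'⟩
        · rw [← hy1 j]
          exact Finset.sum_congr rfl fun i _ => by
            show a j.succ i * x i ^ δ j.succ = _
            rw [hp]
        · rw [← hy2]
          exact Finset.sum_congr rfl fun i _ => by
            show a 0 i * x i ^ δ 0 = _
            rw [hp]
        · show i ∉ T ↔ x i = 0
          rw [hy3 i, ← hx' i, pow_eq_zero_iff (hw i).ne']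
    rw [h2, LF.chi_finset, Fintype.card_piFinset]
    push_cast
    rw [← Finset.prod_subset (Finset.subset_univ T)]
    · refine Finset.prod_congr rfl fun i hi => ?_
      have hne : y i ≠ 0 := fun h => (hy3 i).2 h hi
      have hprim := Complex.isPrimitiveRoot_exp (w i) (hw i).ne'
      rw [Multiset.toFinset_card_of_nodup (hprim.nthRoots_nodup hne), hprim.card_nthRoots, if_pos]
      exact IsAlgClosed.exists_pow_nat_eq (y i) (hw i)
    · intro i _ hi
      have hz : y i = 0 := (hy3 i).1 hi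
      have h3 : (Polynomial.nthRoots (w i) (y i)).toFinset = {0} := by
        ext x
        rw [Multiset.mem_toFinset, Polynomial.mem_nthRoots (hw i), Finset.mem_singleton, hz,
          pow_eq_zero_iff (hw i).ne']
      rw [h3]
      simp
  · intro y hy x hx
    apply hy
    obtain ⟨⟨h1, h2, h3⟩, h4⟩ := hx
    have h4' : ∀ i, x i ^ w i = y i := h4
    have hp : ∀ j i, y i ^ (δ j / w i) = x i ^ δ j := fun j i => by
      rw [← h4' i, mxs_pow (hwδ j i)]
    refine ⟨fun j => ?_, ?_, fun i => ?_⟩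
    · rw [← h1 j]
      exact Finset.sum_congr rfl fun i _ => by
        show a j.succ i * y i ^ (δ j.succ / w i) = a j.succ i * x i ^ δ j.succ
        rw [hp]
    · rw [← h2]
      exact Finset.sum_congr rfl fun i _ => by
        show a 0 i * y i ^ (δ 0 / w i) = a 0 i * x i ^ δ 0
        rw [hp]
    · rw [← h4' i, pow_eq_zero_iff (hw i).ne']
      exact h3 i

theorem chi_YY_fer {χ : K0 →+* ℤ} {n N : ℕ} {w : Fin N → ℕ}
    (hw : ∀ i, 0 < w i) {δ : Fin (n + 1) → ℕ} (hδ : ∀ j, 0 < δ j) (hwδ : ∀ j i, w i ∣ δ j)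
    (a : Fin (n + 1) → Fin N → ℂ) (m : ℕ) :
    χ (cls (YY w (fer a fun j i => δ j / w i) (δ 0) m)) =
      ∑ T ∈ (SS w (δ 0) m).powerset, χ (cls (XS w a δ T)) := by
  classical
  have h1 : YY w (fer a fun j i => δ j / w i) (δ 0) m =
      ⋃ T ∈ (SS w (δ 0) m).powerset, XS w a δ T := by
    ext x
    simp only [Set.mem_iUnion, Finset.mem_powerset, exists_prop]
    constructor
    · rintro ⟨h2, h3, h4⟩
      refine ⟨Finset.univ.filter fun i => x i ≠ 0, ?_, ?_, ?_, ?_⟩
      · intro i hi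
        unfold SS
        rw [Finset.mem_filter] at hi ⊢
        refine ⟨Finset.mem_univ _, ?_⟩
        by_contra h5
        exact hi.2 (h4 i h5)
      · intro j
        have := h2 j
        rwa [eval_fer] at this
      · rwa [eval_fer] at h3
      · intro i
        simp
    · rintro ⟨T, hT, h2, h3, h4⟩
      refine ⟨fun j => ?_, ?_, fun i hi => ?_⟩
      · rw [eval_fer]
        exact h2 j
      · rw [eval_fer]
        exact h3
      · refine (h4 i).1 fun h5 => hi ?_
        have := hT h5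
        unfold SS at this
        rw [Finset.mem_filter] at this
        exact this.2
  rw [h1, cls_biUnion _ (fun T _ => constr_XS w a δ T), map_sum]
  intro T _ T' _ hne
  rw [Set.disjoint_left]
  rintro x ⟨-, -, h2⟩ ⟨-, -, h3⟩
  apply hne
  ext i
  have := (h2 i).trans (h3 i).symm
  tauto

end DW
end MotMono
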