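import Pool.Agent.Lib.MP_4e5fcd_ag.DW.MRes

/-!
# DW-MYY: the fixed points on the fibre have the Euler characteristic of the generic system

PROOF.  If there is no `i` with `δ 0 ∣ m * w i` then both sets are empty: a point is `0`, where `F 0` and
`fer … 0` vanish (`HC.eval_zero_homog` for weighted homogeneous: the constant coefficient is `0`, as `δ 0 > 0`).
Otherwise `δ 0 ∣ m * w i ∣ m * δ j` for all `j`. Let `g : Fin k → Fin N` be the order embedding of the set of the `i` with
`δ 0 ∣ m * w i` (`Finset.orderEmbOfFin`, `k` its cardinality). By `cls_res` and `eval_res`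
`cls (YY w F (δ 0) m) = cls {x | (∀ j, eval x (res g (F j.succ)) = 0) ∧ eval x (res g (F 0)) = 1}`, also for `fer`.
`hχ.wci` for `w ∘ g`, `δ`, `fun j => res g (F j)` and `fun j => res g (fer … j)`: `wh_res`, `wh_fer`, `ns_res` (for `F`, and for
`Fin.tail F`), `ns_fer` (`K j i = δ j / w i > 0`), `Gen.tail`.
-/

open MvPolynomial

namespace MotMono
namespace DW

open LF HC

theorem constr_YY {n N : ℕ} (w : Fin N → ℕ) (F : Fin (n + 1) → MvPolynomial (Fin N) ℂ) (e m : ℕ) :
    Constr (YY w F e m) := by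
  have h1 : YY w F e m = ((⋂ j : Fin n, {x : Fin N → ℂ | eval x (F j.succ) = eval x 0}) ∩
      {x | eval x (F 0) = eval x 1}) ∩
      ⋂ i : {i : Fin N // ¬ e ∣ m * w i}, {x : Fin N → ℂ | eval x (X i.1) = eval x 0} := by
    ext x
    simp only [YY, Set.mem_ofPred_eq, Set.mem_inter_iff, Set.mem_iInter, map_zero, map_one, eval_X,
      Subtype.forall]
    tauto
  rw [h1]
  exact ((constr_iInter fun j => constr_eq _ _).inter (constr_eq _ _)).inter
    (constr_iInter fun i => constr_eq _ _)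

/-- a weighted homogeneous polynomial of positive degree vanishes at the origin -/
private theorem myy_zero {N d : ℕ} {w : Fin N → ℕ} (hd : 0 < d) {p : MvPolynomial (Fin N) ℂ}
    (hp : IsWeightedHomogeneous w p d) : eval (0 : Fin N → ℂ) p = 0 := by
  have h1 : coeff 0 p = 0 := by
    by_contra h
    have h2 := hp h
    rw [map_zero] at h2
    exact hd.ne h2
  rw [← constantCoeff_eq] at h1
  rw [← h1, eval_zero]

/-- without free coordinates the set is empty -/
private theorem myy_empty {n N : ℕ} {w : Fin N → ℕ} {F : Fin (n + 1) → MvPolynomial (Fin N) ℂ}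
    {e m d : ℕ} (hd : 0 < d) (hF : IsWeightedHomogeneous w (F 0) d) (h : ∀ i, ¬ e ∣ m * w i) :
    YY w F e m = ∅ := by
  ext x
  simp only [YY, Set.mem_ofPred_eq, Set.mem_empty_iff_false, iff_false, not_and]
  intro _ h2 h3
  have h4 : x = 0 := funext fun i => h3 i (h i)
  rw [h4, myy_zero hd hF] at h2
  exact zero_ne_one h2

/-- the set in the free coordinates -/
private theorem myy_cls {n N k : ℕ} {w : Fin N → ℕ} {g : Fin k → Fin N}
    (hg : Function.Injective g) (F : Fin (n + 1) → MvPolynomial (Fin N) ℂ) {e m : ℕ}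
    (hge : ∀ i, i ∈ Set.range g ↔ e ∣ m * w i) :
    cls (YY w F e m) = cls {x : Fin k → ℂ | (∀ j : Fin n, eval x (res g (F j.succ)) = 0) ∧
      eval x (res g (F 0)) = 1} := by
  rw [cls_res hg (constr_YY w F e m) fun x hx i hi => hx.2.2 i fun h => hi ((hge i).2 h)]
  congr 1
  ext x
  simp only [YY, Set.mem_ofPred_eq, eval_res hg]
  constructor
  · rintro ⟨h1, h2, -⟩
    exact ⟨h1, h2⟩
  · rintro ⟨h1, h2⟩
    refine ⟨h1, h2, fun i hi => ?_⟩
    have h3 : ¬ ∃ a, g a = i := fun h => hi ((hge i).1 h)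
    rw [Function.extend_apply' _ _ _ h3]
    rfl

theorem chi_YY_eq {χ : K0 →+* ℤ} (hχ : IsEulerCharW χ) {n N : ℕ} {w : Fin N → ℕ}
    (hw : ∀ i, 0 < w i) {δ : Fin (n + 1) → ℕ} (hδ : ∀ j, 0 < δ j) (hwδ : ∀ j i, w i ∣ δ j)
    {F : Fin (n + 1) → MvPolynomial (Fin N) ℂ} (hF : ∀ j, IsWeightedHomogeneous w (F j) (δ j))
    (h1 : NS F) (h2 : NS (Fin.tail F)) {a : Fin (n + 1) → Fin N → ℂ} (ha : Gen a) (m : ℕ) :
    χ (cls (YY w F (δ 0) m)) = χ (cls (YY w (fer a fun j i => δ j / w i) (δ 0) m)) := by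
  classical
  have hG : ∀ j, IsWeightedHomogeneous w (fer a (fun j i => δ j / w i) j) (δ j) :=
    fun j => wh_fer a hwδ j
  by_cases hex : ∃ i, δ 0 ∣ m * w i
  · obtain ⟨i0, hi0⟩ := hex
    have hδ' : ∀ j, δ 0 ∣ m * δ j := fun j => hi0.trans (mul_dvd_mul_left m (hwδ j i0))
    obtain ⟨T, hT⟩ : ∃ T : Finset (Fin N), T = Finset.univ.filter fun i => δ 0 ∣ m * w i := ⟨_, rfl⟩
    obtain ⟨g, hg, hge⟩ : ∃ g : Fin T.card → Fin N, Function.Injective g ∧
        ∀ i, i ∈ Set.range g ↔ δ 0 ∣ m * w i := by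
      refine ⟨T.orderEmbOfFin rfl, (T.orderEmbOfFin rfl).injective, fun i => ?_⟩
      rw [Finset.range_orderEmbOfFin, hT]
      simp
    have hK : ∀ (j : Fin (n + 1)) (i : Fin N), 0 < δ j / w i := fun j i =>
      Nat.div_pos (Nat.le_of_dvd (hδ j) (hwδ j i)) (hw i)
    rw [myy_cls hg F hge, myy_cls hg (fer a fun j i => δ j / w i) hge]
    refine hχ.wci T.card n (fun b => w (g b)) δ (fun j => res g (F j))
      (fun j => res g (fer a (fun j i => δ j / w i) j)) (fun b => hw (g b)) hδ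
      (fun j => wh_res hg (hF j)) (fun j => wh_res hg (hG j)) ?_ ?_ ?_ ?_
    · exact ns_res hg hF hge hδ' h1
    · exact ns_res (δ := fun j : Fin n => δ j.succ) hg (fun j => hF j.succ) hge
        (fun j => hδ' j.succ) h2
    · exact ns_res hg hG hge hδ' (ns_fer ha hK)
    · exact ns_res (δ := fun j : Fin n => δ j.succ) hg (fun j => hG j.succ) hge
        (fun j => hδ' j.succ) (ns_fer ha.tail (K := fun (j : Fin n) i => δ j.succ / w i)
          (fun j i => hK j.succ i))
  · push Not at hex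
    rw [myy_empty (hδ 0) (hF 0) hex, myy_empty (hδ 0) (hG 0) hex]

end DW
end MotMono
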