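import Pool.Agent.Lib.MP_4e5fcd_ag.DW.MRes

/-!
# DW-MZZ: the Euler characteristics of the fibres of the homogeneous generic system

PROOF.
`chi_ZZ`: `g := T.orderEmbOfFin rfl : Fin T.card ↪o Fin N` (range `T`); `cls_res` for `A = ZZ a δ T`; the set on the right is
`{x | (∀ j, eval x (F j.succ) = 0) ∧ eval x (F 0) = 1}` with `F = fer (fun j i => a j (g i)) (fun j _ => δ j)` (the terms with
`i ∉ T` are `a * 0 ^ δ = 0`). `HC.chi_fibre` (for `homog_fer`), `HC.chi_PV` for `F` and for `Fin.tail F` (`flag_fer`, `Gen.comp`),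
`List.ofFn_succ`, `HC.Q_cons`: compare `hY` in `HC/Fib.lean`, `exists_fibre_mono`.
`sum_R`: `∑ j ≤ n, C(n, j) R j L = Q n L`, induction on `n` (all `L`): Pascal (`Finset.sum_range_choose`-like: write the sum for
`n + 1` as `∑ C(n, j) R j L + ∑ C(n, j) R (j+1) L`), `L = []`: `Q n [] = 1`; `L = d :: L'`: `R (j+1) L = d (R j L' - R j L)` and
`Q_succ : Q (n + 1) (d :: L') = d * Q n L' - (d - 1) * Q n (d :: L')`. Base: `R 0 L = Q 0 L`.
`chi_ZS`: `ZZ a δ T` is the disjoint union of the `ZS a δ T'`, `T' ⊆ T` (`T' = ` support of `z`), so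
`χ (cls (ZZ a δ T)) = ∑ T' ∈ T.powerset, χ (cls (ZS a δ T'))`; strong induction on `T` (`Finset.strongInduction`):
`∑ T' ∈ T.powerset, R T'.card L = ∑ j, C(|T|, j) R j L = Q |T| L` (`Finset.sum_powerset_apply_card`).
-/

open MvPolynomial

namespace MotMono
namespace DW

open LF HC

private theorem mzz_constr_sum {n N : ℕ} (a : Fin (n + 1) → Fin N → ℂ) (δ : Fin (n + 1) → ℕ) :
    Constr {z : Fin N → ℂ | (∀ j : Fin n, ∑ i, a j.succ i * z i ^ δ j.succ = 0) ∧
      ∑ i, a 0 i * z i ^ δ 0 = 1} := by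
  have h1 : Constr (⋂ j : Fin n, {z : Fin N → ℂ |
      eval z (∑ i, C (a j.succ i) * X i ^ δ j.succ : MvPolynomial (Fin N) ℂ) = eval z (C 0)}) :=
    constr_iInter fun j => constr_eq _ _
  have h2 := h1.inter
    (constr_eq (∑ i, C (a 0 i) * X i ^ δ 0 : MvPolynomial (Fin N) ℂ) (C 1))
  refine (congrArg Constr ?_).mpr h2
  ext z
  simp only [Set.mem_ofPred_eq, Set.mem_inter_iff, Set.mem_iInter, eval_C, map_sum, map_mul,
    map_pow, eval_X]

private theorem mzz_constr_ZZ {n N : ℕ} (a : Fin (n + 1) → Fin N → ℂ) (δ : Fin (n + 1) → ℕ)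
    (T : Finset (Fin N)) : Constr (ZZ a δ T) := by
  classical
  have h1 : Constr (⋂ i : Fin N, if i ∈ T then Set.univ else
      {z : Fin N → ℂ | eval z (X i : MvPolynomial (Fin N) ℂ) = 0}) := by
    refine constr_iInter fun i => ?_
    split_ifs
    · exact constr_univ
    · exact Constr.zeroSet _
  refine (congrArg Constr ?_).mpr ((mzz_constr_sum a δ).inter h1)
  ext z
  rw [Set.mem_inter_iff, Set.mem_iInter]
  constructor
  · rintro ⟨k1, k2, k3⟩
    refine ⟨⟨k1, k2⟩, fun i => ?_⟩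
    by_cases hi : i ∈ T
    · rw [if_pos hi]
      exact Set.mem_univ _
    · rw [if_neg hi, Set.mem_ofPred_eq, eval_X]
      exact k3 i hi
  · rintro ⟨⟨k1, k2⟩, k3⟩
    refine ⟨k1, k2, fun i hi => ?_⟩
    have k4 := k3 i
    rw [if_neg hi, Set.mem_ofPred_eq, eval_X] at k4
    exact k4

theorem chi_ZZ {χ : K0 →+* ℤ} (hχ : IsEulerCharC χ) {n N : ℕ} {a : Fin (n + 1) → Fin N → ℂ}
    (ha : Gen a) {δ : Fin (n + 1) → ℕ} (hδ : ∀ j, 0 < δ j) (T : Finset (Fin N)) :
    χ (cls (ZZ a δ T)) = Q T.card (List.ofFn δ) := by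
  classical
  obtain ⟨g, hg, hr⟩ : ∃ g : Fin T.card → Fin N, Function.Injective g ∧
      ∀ i, i ∈ Set.range g ↔ i ∈ T := by
    refine ⟨T.orderEmbOfFin rfl, (T.orderEmbOfFin rfl).injective, fun i => ?_⟩
    rw [Finset.range_orderEmbOfFin]
    exact Finset.mem_coe
  rw [cls_res hg (mzz_constr_ZZ a δ T)
    (fun x hx i hi => hx.2.2 i (fun h => hi ((hr i).2 h)))]
  have hsum : ∀ (x : Fin T.card → ℂ) (j : Fin (n + 1)),
      ∑ i, a j i * Function.extend g x 0 i ^ δ j = ∑ i, a j (g i) * x i ^ δ j := by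
    intro x j
    refine (Fintype.sum_of_injective g hg _ _ (fun i hi => ?_) (fun i => ?_)).symm
    · rw [Function.extend_apply' _ _ _ (fun ⟨b, hb⟩ => hi ⟨b, hb⟩), Pi.zero_apply,
        zero_pow (hδ j).ne', mul_zero]
    · rw [hg.extend_apply]
  have hset : {x : Fin T.card → ℂ | Function.extend g x 0 ∈ ZZ a δ T} =
      {x | (∀ j : Fin n, eval x (fer (fun j i => a j (g i)) (fun j _ => δ j) j.succ) = 0) ∧
        eval x (fer (fun j i => a j (g i)) (fun j _ => δ j) 0) = 1} := by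
    ext x
    simp only [Set.mem_ofPred_eq, eval_fer, ZZ, hsum]
    constructor
    · rintro ⟨k1, k2, -⟩
      exact ⟨k1, k2⟩
    · rintro ⟨k1, k2⟩
      refine ⟨k1, k2, fun i hi => ?_⟩
      rw [Function.extend_apply' _ _ _ (fun ⟨b, hb⟩ => hi ((hr i).1 ⟨b, hb⟩)), Pi.zero_apply]
  have hfl : Flag (fer (fun j i => a j (g i)) (fun j _ => δ j)) :=
    flag_fer (ha.comp hg) (fun j _ => hδ j)
  have hh : ∀ j, (fer (fun j i => a j (g i)) (fun j _ => δ j) j).IsHomogeneous (δ j) :=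
    fun j => homog_fer _ δ j
  rw [hset, chi_fibre hχ.toIsEulerCharF hδ hh, chi_PV hχ _ _ δ hδ hh hfl,
    chi_PV hχ _ (Fin.tail (fer (fun j i => a j (g i)) (fun j _ => δ j))) (Fin.tail δ)
      (fun j => hδ j.succ) (fun j => hh j.succ) hfl.2, List.ofFn_succ, Q_cons]
  rfl

private theorem mzz_pascal (n : ℕ) (f : ℕ → ℤ) :
    ∑ j ∈ Finset.range (n + 1 + 1), ((n + 1).choose j : ℤ) * f j =
      ∑ j ∈ Finset.range (n + 1), (n.choose j : ℤ) * f j +
        ∑ j ∈ Finset.range (n + 1), (n.choose j : ℤ) * f (j + 1) := by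
  have h1 : ∑ j ∈ Finset.range (n + 1), (n.choose j : ℤ) * f j =
      ∑ j ∈ Finset.range (n + 1), (n.choose (j + 1) : ℤ) * f (j + 1) + f 0 := by
    have h2 := Finset.sum_range_succ (fun j => (n.choose j : ℤ) * f j) (n + 1)
    rw [Nat.choose_succ_self, Nat.cast_zero, zero_mul, add_zero] at h2
    rw [← h2, Finset.sum_range_succ', Nat.choose_zero_right, Nat.cast_one, one_mul]
  rw [Finset.sum_range_succ', Nat.choose_zero_right, Nat.cast_one, one_mul, h1]
  rw [Finset.sum_congr rfl (g := fun j => (n.choose j : ℤ) * f (j + 1) +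
    (n.choose (j + 1) : ℤ) * f (j + 1)) (fun j _ => by
      rw [Nat.choose_succ_succ', Nat.cast_add, add_mul]), Finset.sum_add_distrib]
  ring

theorem sum_R (n : ℕ) (L : List ℕ) :
    ∑ j ∈ Finset.range (n + 1), (n.choose j : ℤ) * R j L = Q n L := by
  induction n generalizing L with
  | zero =>
    rw [zero_add, Finset.sum_range_one, Nat.choose_self, Nat.cast_one, one_mul]
    cases L with
    | nil => rw [Q_nil, R]
    | cons d L => rw [Q_zero_cons, R]
  | succ n ih =>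
    rw [mzz_pascal, ih]
    cases L with
    | nil =>
      rw [Finset.sum_eq_zero (fun j _ => by rw [R, mul_zero]), add_zero, Q_nil, Q_nil]
    | cons d L =>
      have h1 : ∑ j ∈ Finset.range (n + 1), (n.choose j : ℤ) * R (j + 1) (d :: L) =
          d * (Q n L - Q n (d :: L)) := by
        rw [← ih, ← ih, ← Finset.sum_sub_distrib, Finset.mul_sum]
        refine Finset.sum_congr rfl fun j _ => ?_
        rw [R]
        ring
      rw [h1, Q_succ]
      ring

theorem constr_ZS {n N : ℕ} (a : Fin (n + 1) → Fin N → ℂ) (δ : Fin (n + 1) → ℕ)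
    (T : Finset (Fin N)) : Constr (ZS a δ T) := by
  classical
  have h1 : Constr (⋂ i : Fin N, if i ∈ T then
      {z : Fin N → ℂ | eval z (X i : MvPolynomial (Fin N) ℂ) ≠ 0} else
      {z : Fin N → ℂ | eval z (X i : MvPolynomial (Fin N) ℂ) = 0}) := by
    refine constr_iInter fun i => ?_
    split_ifs
    · exact constr_ne _
    · exact Constr.zeroSet _
  refine (congrArg Constr ?_).mpr ((mzz_constr_sum a δ).inter h1)
  ext z
  rw [Set.mem_inter_iff, Set.mem_iInter]
  constructor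
  · rintro ⟨k1, k2, k3⟩
    refine ⟨⟨k1, k2⟩, fun i => ?_⟩
    by_cases hi : i ∈ T
    · rw [if_pos hi, Set.mem_ofPred_eq, eval_X]
      exact fun h => (k3 i).2 h hi
    · rw [if_neg hi, Set.mem_ofPred_eq, eval_X]
      exact (k3 i).1 hi
  · rintro ⟨⟨k1, k2⟩, k3⟩
    refine ⟨k1, k2, fun i => ?_⟩
    have k4 := k3 i
    by_cases hi : i ∈ T
    · rw [if_pos hi, Set.mem_ofPred_eq, eval_X] at k4
      exact ⟨fun h => absurd hi h, fun h => absurd h k4⟩
    · rw [if_neg hi, Set.mem_ofPred_eq, eval_X] at k4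
      exact ⟨fun _ => k4, fun _ => hi⟩

private theorem mzz_union {n N : ℕ} (a : Fin (n + 1) → Fin N → ℂ) (δ : Fin (n + 1) → ℕ)
    (T : Finset (Fin N)) : ZZ a δ T = ⋃ T' ∈ T.powerset, ZS a δ T' := by
  classical
  ext z
  simp only [Set.mem_iUnion, Finset.mem_powerset, exists_prop]
  constructor
  · rintro ⟨k1, k2, k3⟩
    refine ⟨Finset.univ.filter fun i => z i ≠ 0, fun i hi => ?_, k1, k2, fun i => ?_⟩
    · by_contra h
      exact (Finset.mem_filter.1 hi).2 (k3 i h)
    · rw [Finset.mem_filter, not_and, not_not]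
      exact ⟨fun h => h (Finset.mem_univ _), fun h _ => h⟩
  · rintro ⟨T', hT', k1, k2, k3⟩
    exact ⟨k1, k2, fun i hi => (k3 i).1 fun h => hi (hT' h)⟩

private theorem mzz_sum {χ : K0 →+* ℤ} {n N : ℕ} (a : Fin (n + 1) → Fin N → ℂ)
    (δ : Fin (n + 1) → ℕ) (T : Finset (Fin N)) :
    χ (cls (ZZ a δ T)) = ∑ T' ∈ T.powerset, χ (cls (ZS a δ T')) := by
  rw [mzz_union, cls_biUnion _ (fun T' _ => constr_ZS a δ T') (fun T₁ _ T₂ _ h => ?_), map_sum]
  rw [Set.disjoint_left]
  intro z h1 h2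
  apply h
  ext i
  exact not_iff_not.1 ((h1.2.2 i).trans (h2.2.2 i).symm)

theorem chi_ZS {χ : K0 →+* ℤ} (hχ : IsEulerCharC χ) {n N : ℕ} {a : Fin (n + 1) → Fin N → ℂ}
    (ha : Gen a) {δ : Fin (n + 1) → ℕ} (hδ : ∀ j, 0 < δ j) (T : Finset (Fin N)) :
    χ (cls (ZS a δ T)) = R T.card (List.ofFn δ) := by
  classical
  induction T using Finset.strongInduction with
  | H T ih =>
    have h1 := chi_ZZ hχ ha hδ T
    rw [mzz_sum, ← sum_R] at h1
    have h2 := Finset.sum_powerset_apply_card (fun k => R k (List.ofFn δ)) (x := T)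
    simp only [nsmul_eq_mul] at h2
    rw [← h2, ← Finset.sum_erase_add _ _ (Finset.mem_powerset_self T),
      ← Finset.sum_erase_add _ (fun T' : Finset (Fin N) => R T'.card (List.ofFn δ))
        (Finset.mem_powerset_self T),
      Finset.sum_congr rfl (g := fun T' : Finset (Fin N) => R T'.card (List.ofFn δ))
        (fun T' hT' => ?_)] at h1
    · exact add_left_cancel h1
    · rw [Finset.mem_erase, Finset.mem_powerset] at hT'
      exact ih T' (Finset.ssubset_iff_subset_ne.2 ⟨hT'.2, hT'.1⟩)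

end DW
end MotMono
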