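import Pool.Agent.Lib.MP_4e5fcd_ag.DW.MFub
import Pool.Agent.Lib.MP_4e5fcd_ag.DW.MSum
import Pool.Agent.Lib.MP_4e5fcd_ag.DW.MYY
import Pool.Agent.Lib.MP_4e5fcd_ag.DW.MZZ
import Pool.Agent.Lib.MP_4e5fcd_ag.DW.MXS
import Pool.Agent.Lib.MP_4e5fcd_ag.DW.MCW

/-!
# DW-MEx: fibres with a non-zero signed count

If all weights divide all degrees and `2 w i ≤ d j`, then the sum over the powers of the monodromy of one
of the fibres is not zero.
-/

open MvPolynomial

namespace MotMono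
namespace DW

open WH LF HC HZ

variable {N r : ℕ}

/-- the Euler characteristic of the fixed points as a number of the weights and degrees -/
private theorem chi_YY_UU {χ : K0 →+* ℤ} (hχ : IsEulerCharW χ) {n : ℕ} {w : Fin N → ℕ}
    (hw : ∀ i, 0 < w i) {δ : Fin (n + 1) → ℕ} (hδ : ∀ j, 0 < δ j) (hwδ : ∀ j i, w i ∣ δ j)
    {F : Fin (n + 1) → MvPolynomial (Fin N) ℂ} (hF : ∀ j, IsWeightedHomogeneous w (F j) (δ j))
    (h1 : NS F) (h2 : NS (Fin.tail F)) (m : ℕ) :
    (χ (cls (YY w F (δ 0) m)) : ℚ) = UU w (SS w (δ 0) m) (List.ofFn δ) := by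
  obtain ⟨a, ha⟩ := exists_gen (n + 1) N
  rw [chi_YY_eq hχ hw hδ hwδ hF h1 h2 ha m, chi_YY_fer hw hδ hwδ a m]
  unfold UU
  push_cast
  refine Finset.sum_congr rfl fun T _ => ?_
  have e1 := chi_ZS_XS hχ.toIsEulerCharF hw hδ hwδ a T
  rw [chi_ZS (isEulerCharC_of_W hχ) ha hδ T] at e1
  have e2 : (∏ i ∈ T, (w i : ℚ)) ≠ 0 := Finset.prod_ne_zero_iff.2 fun i _ => by
    exact_mod_cast (hw i).ne'
  rw [eq_div_iff e2, e1]
  push_cast
  ring

private theorem wh_Phi {w : Fin N → ℕ} {d : Fin r → ℕ} {F : Fin r → MvPolynomial (Fin N) ℂ}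
    {B : Fin r → Fin r → ℂ} (hF : ∀ j, IsWeightedHomogeneous w (F j) (d j)) (hB : Tri d B)
    (i : Fin r) : IsWeightedHomogeneous w (HC.Phi F B i) (d i) := by
  refine (hF i).add (IsWeightedHomogeneous.sum _ _ _ fun l _ => ?_)
  by_cases hl : B i l = 0
  · rw [hl, map_zero, zero_mul]
    exact isWeightedHomogeneous_zero _ _ _
  · have h1 := (isWeightedHomogeneous_C (R := ℂ) w (B i l)).mul (hF l)
    rw [zero_add, (hB i l hl).2] at h1
    exact h1

/-- fewer than `N` of the forms have a common zero `c ≠ 0` -/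
private theorem card_lt_w {w : Fin N → ℕ} (hw : ∀ i, 0 < w i) {d : Fin r → ℕ}
    {F : Fin r → MvPolynomial (Fin N) ℂ} (hF : ∀ j, IsWeightedHomogeneous w (F j) (d j))
    (hs : CInt d F) {c : Fin N → ℂ} (hc : c ≠ 0) {a : ℕ}
    (hz : ∀ j, d j ≤ a → eval c (F j) = 0) :
    (Finset.univ.filter fun j => d j ≤ a).card < N := by
  classical
  have hli := hs c hc a hz
  have h0 := hli.fintype_card_le_finrank
  rw [Module.finrank_fin_fun, Fintype.card_subtype] at h0
  refine lt_of_le_of_ne h0 fun hN => ?_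
  have h1 := hli.span_eq_top_of_card_eq_finrank' (by
    rw [Module.finrank_fin_fun, Fintype.card_subtype, hN])
  set φ : (Fin N → ℂ) →ₗ[ℂ] ℂ := ∑ i, ((w i : ℂ) * c i) • LinearMap.proj i with hφ
  have hφa : ∀ v, φ v = ∑ i, (w i : ℂ) * c i * v i := by
    intro v
    rw [hφ, LinearMap.sum_apply]
    rfl
  have h2 : ∀ v ∈ Submodule.span ℂ (Set.range fun j : {j // d j ≤ a} => grad (F j) c), φ v = 0 := by
    intro v hv
    have h3 : Submodule.span ℂ (Set.range fun j : {j // d j ≤ a} => grad (F j) c) ≤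
        LinearMap.ker φ := by
      rw [Submodule.span_le]
      rintro _ ⟨j, rfl⟩
      rw [SetLike.mem_coe, LinearMap.mem_ker, hφa]
      have h4 := congrArg (eval c) (hF j.1).sum_weight_X_mul_pderiv
      rw [map_sum, map_nsmul, hz j.1 j.2, smul_zero] at h4
      rw [← h4]
      refine Finset.sum_congr rfl fun i _ => ?_
      rw [map_nsmul, map_mul, eval_X, nsmul_eq_mul]
      show (w i : ℂ) * c i * eval c (pderiv i (F j)) = _
      ring
    exact LinearMap.mem_ker.1 (h3 hv)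
  rw [h1] at h2
  apply hc
  funext i
  have h3 := h2 (Pi.single i 1) Submodule.mem_top
  rw [hφa, Finset.sum_eq_single i] at h3
  · rw [Pi.single_eq_same, mul_one] at h3
    exact (mul_eq_zero.1 h3).resolve_left (by exact_mod_cast (hw i).ne')
  · intro k _ hk
    rw [Pi.single_eq_of_ne hk, mul_zero]
  · intro h
    exact absurd (Finset.mem_univ _) h

private theorem ex_mono {χ : K0 →+* ℤ} (hχ : IsEulerCharW χ) {w : Fin N → ℕ} (hw : ∀ i, 0 < w i)
    {d : Fin r → ℕ} (hd : Monotone d) (hd0 : ∀ j, 0 < d j)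
    {F : Fin r → MvPolynomial (Fin N) ℂ} (hFw : ∀ j, IsWeightedHomogeneous w (F j) (d j))
    (hF : CInt d F) (j₀ : Fin r) (hwd : ∀ j, d j ≤ d j₀ → ∀ i, w i ∣ d j ∧ 2 * w i ≤ d j)
    (hn : (Finset.univ.filter fun j => d j < d j₀).card < N)
    (hq : ¬ (d j₀ : ℤ) ∣ qn w d (d j₀)) :
    ∃ y : Fin r → ℂ, (∃ j, d j = d j₀ ∧ y j ≠ 0) ∧
      ∑ m ∈ Finset.Icc 1 (d j₀),
        Complex.exp (2 * Real.pi * Complex.I * (qn w d (d j₀)) * m / (d j₀ : ℕ)) *
          (χ (cls (fibre w d F (d j₀) y m)) : ℂ) ≠ 0 := by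
  classical
  by_contra hcon
  push Not at hcon
  obtain ⟨B, hB, hA⟩ := exists_B d F
  set e := d j₀ with he
  -- the first index of degree `e`
  obtain ⟨m1, hm1, hmlt⟩ : ∃ m1 : Fin r, d m1 = e ∧ ∀ j, d j < e ↔ j < m1 := by
    have hne : (Finset.univ.filter fun j => d j = e).Nonempty :=
      ⟨j₀, by rw [Finset.mem_filter]; exact ⟨Finset.mem_univ _, rfl⟩⟩
    have h1 := Finset.min'_mem _ hne
    have h2 := Finset.min'_le (Finset.univ.filter fun j => d j = e)
    set m1 := (Finset.univ.filter fun j => d j = e).min' hne with hm1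
    have h3 : d m1 = e := (Finset.mem_filter.1 h1).2
    refine ⟨m1, h3, fun j => ⟨fun h => ?_, fun h => ?_⟩⟩
    · by_contra h4
      exact absurd (hd (not_lt.1 h4)) (not_le.2 (h3.symm ▸ h))
    · refine lt_of_le_of_ne (h3 ▸ hd h.le) fun h4 => ?_
      exact absurd (h2 j (Finset.mem_filter.2 ⟨Finset.mem_univ _, h4⟩)) (not_le.2 h)
  have hfil : (Finset.univ.filter fun j => d j < e) = Finset.Iio m1 := by
    ext j
    rw [Finset.mem_filter, Finset.mem_Iio]
    exact ⟨fun h => (hmlt j).1 h.2, fun h => ⟨Finset.mem_univ _, (hmlt j).2 h⟩⟩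
  have hmN : (m1 : ℕ) < N := by
    rw [hfil, Fin.card_Iio] at hn
    exact hn
  have hm : (m1 : ℕ) + 1 ≤ r := m1.isLt
  have hm' : (m1 : ℕ) ≤ r := Nat.le_of_succ_le hm
  have hfle : ∀ j, fdeg d hm j ≤ e := by
    intro j
    unfold fdeg
    rw [← hm1]
    refine hd ?_
    rw [Fin.le_def, Fin.val_castLE]
    exact Nat.le_of_lt_succ (Fin.rev j).isLt
  have hcast : Fin.castLE hm (Fin.rev 0) = m1 := by
    rw [Fin.rev_zero]
    rfl
  have hδ0 : fdeg d hm 0 = e := by
    unfold fdeg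
    rw [hcast, hm1]
  set L : List ℕ := List.ofFn (fdeg d hm') with hL
  have hLcons : List.ofFn (fdeg d hm) = e :: L := by
    rw [List.ofFn_succ, hδ0, hL, ← fdeg_tail d hm]
    rfl
  have hLlen : L.length = m1 := by rw [hL, List.length_ofFn]
  have hLsum : (L.sum : ℤ) = ∑ j with d j < e, (d j : ℤ) := by
    rw [hfil, hL, List.sum_ofFn]
    push_cast
    unfold fdeg
    symm
    refine Finset.sum_bij' (fun j hj => Fin.rev ⟨(j : ℕ), Fin.lt_def.1 (Finset.mem_Iio.1 hj)⟩)
      (fun i _ => Fin.castLE hm' (Fin.rev i)) ?_ ?_ ?_ ?_ ?_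
    · intro j hj
      exact Finset.mem_univ _
    · intro i _
      rw [Finset.mem_Iio]
      exact (Fin.rev i).isLt
    · intro j hj
      rw [Fin.rev_rev]
      rfl
    · intro i _
      have : (⟨(Fin.castLE hm' (Fin.rev i) : Fin r), (Fin.rev i).isLt⟩ : Fin (m1 : ℕ)) = Fin.rev i :=
        rfl
      show Fin.rev (⟨(Fin.castLE hm' (Fin.rev i) : Fin r), _⟩ : Fin (m1 : ℕ)) = i
      rw [this, Fin.rev_rev]
    · intro j hj
      show (d j : ℤ) = d (Fin.castLE hm' (Fin.rev (Fin.rev ⟨j, _⟩)))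
      rw [Fin.rev_rev]
      rfl
  have hwh : ∀ j, IsWeightedHomogeneous w (fam F B hm j) (fdeg d hm j) := fun j =>
    wh_Phi hFw hB _
  have hns1 : NS (fam F B hm) := ns_fam hd hd0 hF hB hA hm
  have hns2 : NS (Fin.tail (fam F B hm)) := by
    rw [fam_tail]
    exact ns_fam hd hd0 hF hB hA hm'
  set Y : Set (Fin N → ℂ) := {x : Fin N → ℂ | (∀ j : Fin (m1 : ℕ),
    eval x (fam F B hm j.succ) = 0) ∧ eval x (fam F B hm 0) = 1} with hYdef
  have hYmem : ∀ x, x ∈ Y ↔ ∀ i, i ≤ m1 → eval x (HC.Phi F B i) = if i = m1 then 1 else 0 := by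
    intro x
    rw [hYdef, Set.mem_ofPred_eq]
    constructor
    · rintro ⟨h3, h4⟩ i hi
      rcases lt_or_eq_of_le hi with h5 | h5
      · rw [if_neg h5.ne]
        have h6 := h3 (Fin.rev ⟨i, h5⟩)
        unfold fam at h6
        rw [Fin.rev_succ, Fin.rev_rev] at h6
        exact h6
      · subst h5
        rw [if_pos rfl]
        unfold fam at h4
        rw [hcast] at h4
        exact h4
    · intro h3
      refine ⟨fun j => ?_, ?_⟩
      · have hlt : Fin.castLE hm (Fin.rev j.succ) < m1 := by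
          rw [Fin.rev_succ]
          exact (Fin.rev j).isLt
        have h4 := h3 _ hlt.le
        rw [if_neg hlt.ne] at h4
        exact h4
      · have h4 := h3 m1 le_rfl
        rw [if_pos rfl] at h4
        unfold fam
        rw [hcast]
        exact h4
  have hYc : Constr Y := by
    have h1 : Constr (⋂ j : Fin (m1 : ℕ),
        {x : Fin N → ℂ | eval x (fam F B hm j.succ) = eval x (C 0)}) :=
      constr_iInter fun j => constr_eq _ _
    have h2 := h1.inter (constr_eq (fam F B hm 0) (C 1))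
    refine (congrArg Constr ?_).mpr h2
    ext x
    simp only [hYdef, Set.mem_ofPred_eq, Set.mem_inter_iff, Set.mem_iInter, eval_C]
  have hsum := sum_zero_of_fibres hχ.toIsEulerCharF w (d := d) (F := F) (e := e) hYc ?_ ?_ ?_
    (Finset.Icc 1 e) (fun m => Complex.exp (2 * Real.pi * Complex.I * (qn w d e) * m / e)) hcon
  · have hYY : ∀ m, {x : Fin N → ℂ | x ∈ Y ∧ ∀ i, ¬ e ∣ m * w i → x i = 0} =
        YY w (fam F B hm) (fdeg d hm 0) m := by
      intro m
      rw [hδ0]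
      ext x
      simp only [hYdef, YY, Set.mem_ofPred_eq, and_assoc]
    have hUU : ∀ m, ((χ (cls {x : Fin N → ℂ | x ∈ Y ∧ ∀ i, ¬ e ∣ m * w i → x i = 0}) : ℤ) : ℂ) =
        ((UU w (SS w e m) (e :: L) : ℚ) : ℂ) := by
      intro m
      rw [hYY, ← hLcons, ← hδ0, ← chi_YY_UU (δ := fdeg d hm) hχ hw (fun j => hd0 _)
        (fun j i => (hwd _ (hfle j) i).1) hwh hns1
        hns2 m]
      push_cast
      rfl
    have key := sum_UU_ne hw (e := e) (L := L) (hd0 j₀) (fun i y hy => by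
      rw [← hLcons, List.mem_ofFn] at hy
      obtain ⟨j, rfl⟩ := hy
      exact hwd _ (hfle j) i) (by rw [hLlen]; exact hmN) (q := qn w d e) (by
      rw [hLsum]
      rfl) hq
    apply key
    rw [← hsum]
    exact Finset.sum_congr rfl fun m _ => by rw [hUU]
  · intro x hx j hj
    refine tri_zero hB (fun l => eval x (F l)) (d j) (fun l hl => ?_) j rfl
    have h1 := (hmlt l).1 (hl ▸ hj)
    rw [← eval_Phi, (hYmem x).1 hx l h1.le, if_neg h1.ne]
  · intro x hx
    by_contra h1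
    push Not at h1
    have h2 := (hYmem x).1 hx m1 le_rfl
    rw [if_pos rfl, eval_Phi, h1 m1 hm1, zero_add, Finset.sum_eq_zero] at h2
    · exact zero_ne_one h2
    · intro l _
      by_cases hl : B m1 l = 0
      · rw [hl, zero_mul]
      · rw [h1 l ((hB m1 l hl).2.trans hm1), mul_zero]
  · intro x₀ hx₀ x hx
    rw [hYmem] at hx₀ ⊢
    intro i hi
    have hdi : d i ≤ e := hm1 ▸ hd hi
    rw [← hx₀ i hi, eval_Phi, eval_Phi, hx i hdi]
    congr 1
    refine Finset.sum_congr rfl fun l _ => ?_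
    by_cases hl : B i l = 0
    · rw [hl, zero_mul, zero_mul]
    · rw [hx l ((hB i l hl).2 ▸ hdi)]

/-- **Fibres with a non-zero signed count** -/
theorem exists_fibre_dw {χ : K0 →+* ℤ} (hχ : IsEulerCharW χ) {w : Fin N → ℕ} (hw : ∀ i, 0 < w i)
    {d : Fin r → ℕ} (hd0 : ∀ j, 0 < d j)
    {F : Fin r → MvPolynomial (Fin N) ℂ} (hFw : ∀ j, IsWeightedHomogeneous w (F j) (d j))
    (hF : CInt d F) (j₀ : Fin r) (hwd : ∀ j, d j ≤ d j₀ → ∀ i, w i ∣ d j ∧ 2 * w i ≤ d j)
    {c : Fin N → ℂ} (hc : c ≠ 0)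
    (hz : ∀ j, d j < d j₀ → eval c (F j) = 0) (hq : ¬ (d j₀ : ℤ) ∣ qn w d (d j₀)) :
    ∃ y : Fin r → ℂ, (∃ j, d j = d j₀ ∧ y j ≠ 0) ∧
      ∑ m ∈ Finset.Icc 1 (d j₀),
        Complex.exp (2 * Real.pi * Complex.I * (qn w d (d j₀)) * m / (d j₀ : ℕ)) *
          (χ (cls (fibre w d F (d j₀) y m)) : ℂ) ≠ 0 := by
  classical
  have hn : (Finset.univ.filter fun j => d j < d j₀).card < N := by
    have h1 := card_lt_w hw hFw hF hc (a := d j₀ - 1)
      (fun j hj => hz j (by have := hd0 j₀; omega))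
    have h2 : (Finset.univ.filter fun j => d j < d j₀) =
        Finset.univ.filter fun j => d j ≤ d j₀ - 1 := by
      ext j
      have := hd0 j₀
      simp only [Finset.mem_filter, Finset.mem_univ, true_and]
      omega
    rw [h2]
    exact h1
  set π := Tuple.sort d with hπ
  have hmono : Monotone (d ∘ π) := Tuple.monotone_sort d
  have hF' : CInt (d ∘ π) (F ∘ π) := by
    intro c hc a hz
    have h1 := hF c hc a (fun j hj => by
      have h2 := hz (π.symm j) (by simpa using hj)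
      simpa using h2)
    exact h1.comp (fun j : {j // (d ∘ π) j ≤ a} => (⟨π j.1, j.2⟩ : {j // d j ≤ a}))
      (fun a b hab => Subtype.ext (π.injective (congrArg Subtype.val hab)))
  have hqn : qn w (d ∘ π) (d j₀) = qn w d (d j₀) := by
    unfold qn
    congr 1
    rw [Finset.sum_filter, Finset.sum_filter]
    exact Equiv.sum_comp π fun j => if d j < d j₀ then (d j : ℤ) else 0
  have hcard : (Finset.univ.filter fun j => (d ∘ π) j < d j₀).card =
      (Finset.univ.filter fun j => d j < d j₀).card := by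
    rw [Finset.card_filter, Finset.card_filter]
    exact Equiv.sum_comp π fun j => if d j < d j₀ then 1 else 0
  have hj₀ : (d ∘ π) (π.symm j₀) = d j₀ := by simp
  obtain ⟨y, ⟨j, hj, hyj⟩, hne⟩ := ex_mono hχ hw hmono (fun j => hd0 _)
    (fun j => hFw (π j)) hF' (π.symm j₀) (fun j hj => hwd (π j) (hj₀ ▸ hj)) (by rw [hj₀, hcard]; exact hn)
    (by rw [hj₀, hqn]; exact hq)
  rw [hj₀] at hj
  refine ⟨y ∘ π.symm, ⟨π j, hj, by simpa using hyj⟩, ?_⟩
  have e : ∀ m, fibre w d F (d j₀) (y ∘ π.symm) m = fibre w (d ∘ π) (F ∘ π) (d j₀) y m := by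
    intro m
    ext x
    constructor
    · rintro ⟨h1, h2, h5⟩
      refine ⟨fun j hj => h1 (π j) hj, fun j hj => ?_, h5⟩
      have h3 := h2 (π j) hj
      simpa using h3
    · rintro ⟨h1, h2, h5⟩
      refine ⟨fun j hj => ?_, fun j hj => ?_, h5⟩
      · have h3 := h1 (π.symm j) (by simpa using hj)
        simpa using h3
      · have h3 := h2 (π.symm j) (by simpa using hj)
        simpa using h3
  intro h6
  apply hne
  rw [hj₀, hqn, ← h6]
  exact Finset.sum_congr rfl fun m _ => by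
    rw [e]
    rfl

end DW
end MotMono
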