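import Pool.Agent.Lib.MP_4e5fcd_ag.DW.Base

/-!
# DW-MFer: generic systems are nonsingular

PROOF.
`exists_gen`: `HC.exists_der ∅ countable_empty (Fin c × Fin N)` (see `exists_hyp` in `HC/Ns.lean`).
`Gen.comp`: given `v`, apply `h` to the function which is `v j k` at `g k` and `0` elsewhere
(`Function.extend`). `Gen.tail`: `Fin.cons 0 v`.
`ns_fer`: let `x ≠ 0`, `∑ i, a j i x_i^(K j i) = 0`, `∑ j, μ j ∂_l (fer a K j) (x) = 0` for all `l`. For a derivation `D`
apply `D` to the first equation: `0 = ∑ i, D (a j i) x_i^(K j i) + ∑ l, ∂_l (fer a K j) (x) D x_l` (direct: `D` is additive,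
`Derivation.leibniz`, `Derivation.leibniz_pow`; `∂_l (fer a K j) = C (a j l) * K j l * X l ^ (K j l - 1)`). Multiply by `μ j`
and sum over `j`: `∑ j, μ j * ∑ i, D (a j i) x_i^(K j i) = 0`. Take `i` with `x i ≠ 0` and `j`, and `D` with
`D (a j' i') = 1` if `j' = j`, `i' = i`, `0` otherwise: `μ j * x_i^(K j i) = 0`, so `μ j = 0`.
`flag_fer`: induction on `c`, `Fin.tail (fer a K) = fer (fun j => a j.succ) (fun j => K j.succ)` (`rfl`).
-/

open MvPolynomial

namespace MotMono
namespace DW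

open LF HC

theorem exists_gen (c N : ℕ) : ∃ a : Fin c → Fin N → ℂ, Gen a := by
  obtain ⟨a, ha⟩ := exists_der ∅ Set.countable_empty (Fin c × Fin N)
  refine ⟨fun j i => a (j, i), fun v => ?_⟩
  obtain ⟨D, _, h2⟩ := ha (fun p => v p.1 p.2)
  exact ⟨D, fun j i => h2 (j, i)⟩

theorem Gen.comp {c N k : ℕ} {a : Fin c → Fin N → ℂ} (h : Gen a) {g : Fin k → Fin N}
    (hg : Function.Injective g) : Gen fun j i => a j (g i) := by
  intro v
  obtain ⟨D, hD⟩ := h (fun j => Function.extend g (v j) 0)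
  refine ⟨D, fun j i => ?_⟩
  show D (a j (g i)) = v j i
  rw [hD j (g i), hg.extend_apply]

theorem Gen.tail {n N : ℕ} {a : Fin (n + 1) → Fin N → ℂ} (h : Gen a) :
    Gen fun j : Fin n => a j.succ := by
  intro v
  obtain ⟨D, hD⟩ := h (Fin.cons (α := fun _ => Fin N → ℂ) 0 v)
  refine ⟨D, fun j i => ?_⟩
  show D (a j.succ i) = v j i
  rw [hD j.succ i, Fin.cons_succ]

private theorem eval_fer_aux {c N : ℕ} (a : Fin c → Fin N → ℂ) (K : Fin c → Fin N → ℕ) (j : Fin c)
    (x : Fin N → ℂ) : eval x (fer a K j) = ∑ i, a j i * x i ^ K j i := by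
  unfold fer
  rw [map_sum]
  refine Finset.sum_congr rfl fun i _ => ?_
  rw [map_mul, map_pow, eval_C, eval_X]

private theorem eval_pderiv_fer {c N : ℕ} (a : Fin c → Fin N → ℂ) (K : Fin c → Fin N → ℕ)
    (j : Fin c) (l : Fin N) (x : Fin N → ℂ) :
    eval x (pderiv l (fer a K j)) = a j l * (K j l * x l ^ (K j l - 1)) := by
  classical
  unfold fer
  rw [map_sum, map_sum, Finset.sum_eq_single l]
  · rw [pderiv_C_mul, pderiv_pow, pderiv_X_self]
    simp
  · intro i _ hi
    rw [pderiv_C_mul, pderiv_pow, pderiv_X_of_ne hi]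
    simp
  · intro hl
    exact absurd (Finset.mem_univ l) hl

private theorem der_fer {c N : ℕ} (a : Fin c → Fin N → ℂ) (K : Fin c → Fin N → ℕ)
    (D : Derivation ℤ ℂ ℂ) (j : Fin c) (x : Fin N → ℂ) :
    D (eval x (fer a K j)) = ∑ i, D (a j i) * x i ^ K j i +
      ∑ l, eval x (pderiv l (fer a K j)) * D (x l) := by
  rw [eval_fer_aux, map_sum, ← Finset.sum_add_distrib]
  refine Finset.sum_congr rfl fun i _ => ?_
  rw [eval_pderiv_fer, D.leibniz, D.leibniz_pow]
  simp only [smul_eq_mul, nsmul_eq_mul]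
  ring

theorem ns_fer {c N : ℕ} {a : Fin c → Fin N → ℂ} (h : Gen a) {K : Fin c → Fin N → ℕ}
    (hK : ∀ j i, 0 < K j i) : NS (fer a K) := by
  classical
  intro x hx h0 μ hμ
  obtain ⟨i, hi⟩ := Function.ne_iff.1 hx
  have hi' : x i ≠ 0 := hi
  have key : ∀ D : Derivation ℤ ℂ ℂ, ∑ j, μ j * ∑ i, D (a j i) * x i ^ K j i = 0 := by
    intro D
    have h1 : ∀ j, ∑ i, D (a j i) * x i ^ K j i =
        -∑ l, eval x (pderiv l (fer a K j)) * D (x l) := by
      intro j
      have h2 := der_fer a K D j x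
      rw [h0 j, map_zero] at h2
      linear_combination -h2
    have h3 : ∑ j, μ j * ∑ i, D (a j i) * x i ^ K j i =
        -∑ l, (∑ j, μ j * eval x (pderiv l (fer a K j))) * D (x l) := by
      rw [Finset.sum_congr rfl fun j _ => by rw [h1 j]]
      simp only [Finset.sum_mul, mul_neg, Finset.mul_sum, Finset.sum_neg_distrib]
      rw [Finset.sum_comm]
      simp only [mul_assoc]
    rw [h3]
    simp only [hμ, zero_mul, Finset.sum_const_zero, neg_zero]
  funext j
  obtain ⟨D, hD⟩ := h (fun j' i' => if j' = j then (if i' = i then 1 else 0) else 0)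
  have h4 := key D
  rw [Finset.sum_eq_single j, Finset.sum_eq_single i, hD j i, if_pos rfl, if_pos rfl, one_mul] at h4
  · exact (mul_eq_zero.1 h4).resolve_right (pow_ne_zero _ hi')
  · intro i' _ hi''
    rw [hD j i', if_pos rfl, if_neg hi'', zero_mul]
  · intro hl
    exact absurd (Finset.mem_univ i) hl
  · intro j' _ hj'
    rw [Finset.sum_eq_zero, mul_zero]
    intro i' _
    rw [hD j' i', if_neg hj', zero_mul]
  · intro hl
    exact absurd (Finset.mem_univ j) hl

theorem flag_fer : ∀ {c N : ℕ} {a : Fin c → Fin N → ℂ} (_ : Gen a) {K : Fin c → Fin N → ℕ}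
    (_ : ∀ j i, 0 < K j i), Flag (fer a K) := by
  intro c
  induction c with
  | zero =>
    intro N a _ K _
    trivial
  | succ c ih =>
    intro N a h K hK
    exact ⟨ns_fer h hK, ih h.tail (K := fun j => K j.succ) (fun j i => hK j.succ i)⟩

theorem homog_fer {c N : ℕ} (a : Fin c → Fin N → ℂ) (δ : Fin c → ℕ) (j : Fin c) :
    (fer a (fun j _ => δ j) j).IsHomogeneous (δ j) := by
  unfold fer
  refine IsHomogeneous.sum _ _ _ fun i _ => ?_
  have h1 : (C (a j i) * X i ^ δ j : MvPolynomial (Fin N) ℂ).IsHomogeneous (0 + δ j) :=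
    (isHomogeneous_C _ _).mul (isHomogeneous_X_pow i (δ j))
  rwa [zero_add] at h1

theorem wh_fer {c N : ℕ} (a : Fin c → Fin N → ℂ) {w : Fin N → ℕ} {δ : Fin c → ℕ}
    (h : ∀ j i, w i ∣ δ j) (j : Fin c) :
    IsWeightedHomogeneous w (fer a (fun j i => δ j / w i) j) (δ j) := by
  have h0 : ∀ i ∈ (Finset.univ : Finset (Fin N)),
      (C (a j i) * X i ^ (δ j / w i) : MvPolynomial (Fin N) ℂ) ∈
        weightedHomogeneousSubmodule ℂ w (δ j) := by
    intro i _
    rw [mem_weightedHomogeneousSubmodule]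
    have h1 := (isWeightedHomogeneous_C w (a j i)).mul
      ((isWeightedHomogeneous_X ℂ w i).pow (δ j / w i))
    rwa [zero_add, smul_eq_mul, Nat.div_mul_cancel (h j i)] at h1
  have h2 := (weightedHomogeneousSubmodule ℂ w (δ j)).sum_mem h0
  exact (mem_weightedHomogeneousSubmodule ℂ w (δ j) _).1 h2

theorem eval_fer {c N : ℕ} (a : Fin c → Fin N → ℂ) (K : Fin c → Fin N → ℕ) (j : Fin c)
    (x : Fin N → ℂ) : eval x (fer a K j) = ∑ i, a j i * x i ^ K j i :=
  eval_fer_aux a K j x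

end DW
end MotMono
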