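import Pool.Agent.Lib.MP_4e5fcd_ag.DW.Base
import Pool.Agent.Lib.MP_4e5fcd_ag.HC.Fib

/-!
# DW-MFub: linear relations between the Euler characteristics of all fibres

If `∑ m, c m * χ (fibre … y m) = 0` for all `y ≠ 0` (complex `c m`), then the same relation holds for a
set `Y` fibred by the fibres.
-/

open MvPolynomial

namespace MotMono
namespace DW

open WH LF HC HZ

variable {N r : ℕ}

/-- integral coefficients -/
private theorem fub_int {χ : K0 →+* ℤ} (hχ : IsEulerCharF χ) (w : Fin N → ℕ) {d : Fin r → ℕ}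
    {F : Fin r → MvPolynomial (Fin N) ℂ} {e : ℕ} {Y : Set (Fin N → ℂ)} (hY : Constr Y)
    (h1 : ∀ x ∈ Y, ∀ j, d j < e → eval x (F j) = 0)
    (h2 : ∀ x ∈ Y, ∃ j, d j = e ∧ eval x (F j) ≠ 0)
    (h3 : ∀ x₀ ∈ Y, ∀ x, (∀ j, d j ≤ e → eval x (F j) = eval x₀ (F j)) → x ∈ Y)
    (M : Finset ℕ) (c : ℕ → ℤ)
    (h4 : ∀ y : Fin r → ℂ, (∃ j, d j = e ∧ y j ≠ 0) →
      ∑ m ∈ M, c m * χ (cls (fibre w d F e y m)) = 0) :
    ∑ m ∈ M, c m * χ (cls {x | x ∈ Y ∧ ∀ i, ¬ e ∣ m * w i → x i = 0}) = 0 := by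
  classical
  have hYm : ∀ m : ℕ, Constr {x : Fin N → ℂ | x ∈ Y ∧ ∀ i, ¬ e ∣ m * w i → x i = 0} := by
    intro m
    have h5 : Constr (⋂ i : Fin N, {x : Fin N → ℂ |
        eval x (if e ∣ m * w i then 0 else X i : MvPolynomial (Fin N) ℂ) =
          eval x (0 : MvPolynomial (Fin N) ℂ)}) := constr_iInter fun i => constr_eq _ _
    refine (congrArg Constr ?_).mpr (hY.inter h5)
    ext x
    simp only [Set.mem_ofPred_eq, Set.mem_inter_iff, Set.mem_iInter, map_zero]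
    refine and_congr Iff.rfl (forall_congr' fun i => ?_)
    by_cases h : e ∣ m * w i
    · rw [if_pos h, map_zero]
      exact ⟨fun _ => rfl, fun _ h6 => absurd h h6⟩
    · rw [if_neg h, eval_X]
      exact ⟨fun h6 => h6 h, fun h6 _ => h6⟩
  set T : ℕ → Set (Fin N ⊕ Fin r → ℂ) := fun m =>
    {z | (fun i => z (Sum.inl i)) ∈ {x | x ∈ Y ∧ ∀ i, ¬ e ∣ m * w i → x i = 0} ∧
    ∀ j, z (Sum.inr j) = if d j = e then eval (fun i => z (Sum.inl i)) (F j) else 0} with hTdef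
  have hTmem : ∀ (m : ℕ) (x : Fin N → ℂ) (y : Fin r → ℂ), Sum.elim x y ∈ T m ↔
      (x ∈ Y ∧ ∀ i, ¬ e ∣ m * w i → x i = 0) ∧ ∀ j, y j = if d j = e then eval x (F j) else 0 :=
    fun m x y => Iff.rfl
  have hT : ∀ m, Constr (T m) := by
    intro m
    have c1 := (hYm m).comp (Sum.inl : Fin N → Fin N ⊕ Fin r)
    have c2 : Constr (⋂ j : Fin r, {z : Fin N ⊕ Fin r → ℂ |
        eval z (X (Sum.inr j) : MvPolynomial (Fin N ⊕ Fin r) ℂ) =
        eval z (if d j = e then rename Sum.inl (F j) else 0 : MvPolynomial (Fin N ⊕ Fin r) ℂ)}) :=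
      constr_iInter fun j => constr_eq _ _
    refine (congrArg Constr ?_).mpr (c1.inter c2)
    ext z
    simp only [hTdef, Set.mem_ofPred_eq, Set.mem_inter_iff, Set.mem_iInter, eval_X]
    refine and_congr Iff.rfl (forall_congr' fun j => ?_)
    by_cases hj : d j = e
    · rw [if_pos hj, if_pos hj, eval_rename]
      rfl
    · rw [if_neg hj, if_neg hj, map_zero]
  have k2 : ∀ m, χ (cls (T m)) = 1 * χ (cls {x | x ∈ Y ∧ ∀ i, ¬ e ∣ m * w i → x i = 0}) := by
    intro m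
    refine chi_fib_left hχ (hT m) (hYm m) 1 (fun x hx => ?_)
      (fun x hx y hy => hx ((hTmem m x y).1 hy).1)
    have e1 : {y : Fin r → ℂ | Sum.elim x y ∈ T m} =
        {fun j => if d j = e then eval x (F j) else 0} := by
      ext y
      rw [Set.mem_ofPred_eq, hTmem, Set.mem_singleton_iff]
      constructor
      · rintro ⟨-, h5⟩
        funext j
        exact h5 j
      · rintro rfl
        exact ⟨hx, fun j => rfl⟩
    rw [e1, cls_singleton, map_one]
  have key := hχ.fubini (ι := {m // m ∈ M}) (τ := Fin r) (fun _ => Fin N) (fun m => T m.1)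
    (fun m => hT m.1) (fun m => c m.1) (by
      intro y
      by_cases hne : ∃ x₀ : Fin N → ℂ, x₀ ∈ Y ∧ ∀ j, y j = if d j = e then eval x₀ (F j) else 0
      · obtain ⟨x₀, hx₀, hy₀⟩ := hne
        have e1 : ∀ m : ℕ, {x : Fin N → ℂ | Sum.elim x y ∈ T m} = fibre w d F e y m := by
          intro m
          ext x
          rw [Set.mem_ofPred_eq, hTmem]
          constructor
          · rintro ⟨⟨hx, hx'⟩, hy⟩
            exact ⟨h1 x hx, fun j hj => by rw [hy j, if_pos hj], hx'⟩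
          · rintro ⟨hx, hy, hx'⟩
            refine ⟨⟨h3 x₀ hx₀ x fun j hj => ?_, hx'⟩, fun j => ?_⟩
            · rcases lt_or_eq_of_le hj with h5 | h5
              · rw [hx j h5, h1 x₀ hx₀ j h5]
              · rw [hy j h5, hy₀ j, if_pos h5]
            · by_cases hj : d j = e
              · rw [if_pos hj, hy j hj]
              · rw [if_neg hj, hy₀ j, if_neg hj]
        obtain ⟨j, hj, hjx⟩ := h2 x₀ hx₀
        have h5 := h4 y ⟨j, hj, by rw [hy₀ j, if_pos hj]; exact hjx⟩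
        rw [← Finset.sum_coe_sort] at h5
        rw [← h5]
        exact Finset.sum_congr rfl fun m _ => by rw [e1]
      · refine Finset.sum_eq_zero fun m _ => ?_
        have e1 : {x : Fin N → ℂ | Sum.elim x y ∈ T m.1} = ∅ := by
          ext x
          simp only [Set.mem_ofPred_eq, Set.mem_empty_iff_false, iff_false]
          exact fun hx => hne ⟨x, hx.1.1, hx.2⟩
        rw [e1, cls_empty, map_zero, mul_zero])
  rw [← Finset.sum_coe_sort, ← key]
  refine Finset.sum_congr rfl fun m _ => ?_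
  rw [k2, one_mul]

/-- a complex linear combination of integers is zero if all rational functionals of it are zero -/
private theorem fub_dual {ι : Type} (M : Finset ι) (c : ι → ℂ) (k : ι → ℤ)
    (h : ∀ b : ι → ℤ, (∃ (D : ℤ) (φ : Module.Dual ℚ ℂ), D ≠ 0 ∧ ∀ m ∈ M, (b m : ℚ) = D * φ (c m)) →
      ∑ m ∈ M, b m * k m = 0) : ∑ m ∈ M, c m * (k m : ℂ) = 0 := by
  classical
  rw [← Module.forall_dual_apply_eq_zero_iff ℚ]
  intro φ
  set D : ℤ := ∏ m ∈ M, ((φ (c m)).den : ℤ) with hD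
  have hD0 : D ≠ 0 := Finset.prod_ne_zero_iff.2 fun m _ => by exact_mod_cast (φ (c m)).den_nz
  have hDm : ∀ m ∈ M, ∃ b : ℤ, (b : ℚ) = D * φ (c m) := by
    intro m hm
    refine ⟨(∏ m' ∈ M.erase m, ((φ (c m')).den : ℤ)) * (φ (c m)).num, ?_⟩
    have h1 : (D : ℚ) = ((∏ m' ∈ M.erase m, ((φ (c m')).den : ℤ) : ℤ) : ℚ) * (φ (c m)).den := by
      rw [hD, ← Finset.prod_erase_mul _ _ hm]
      push_cast
      rfl
    have h2 : ((φ (c m)).den : ℚ) * φ (c m) = (φ (c m)).num := by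
      rw [mul_comm]
      exact Rat.mul_den_eq_num _
    rw [h1, mul_assoc, h2]
    push_cast
    rfl
  choose! b hb using hDm
  have h1 := h b ⟨D, φ, hD0, hb⟩
  have h2 : (D : ℚ) * φ (∑ m ∈ M, c m * (k m : ℂ)) = 0 := by
    rw [map_sum, Finset.mul_sum]
    have h3 : ∀ m ∈ M, (D : ℚ) * φ (c m * (k m : ℂ)) = ((b m * k m : ℤ) : ℚ) := by
      intro m hm
      have h4 : c m * (k m : ℂ) = ((k m : ℤ) : ℚ) • c m := by
        rw [mul_comm, Rat.smul_def]
        push_cast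
        rfl
      rw [h4, map_smul, smul_eq_mul]
      push_cast
      rw [hb m hm]
      ring
    rw [Finset.sum_congr rfl h3, ← Int.cast_sum, h1, Int.cast_zero]
  exact (mul_eq_zero.1 h2).resolve_left (by exact_mod_cast hD0)

theorem sum_zero_of_fibres {χ : K0 →+* ℤ} (hχ : IsEulerCharF χ) (w : Fin N → ℕ) {d : Fin r → ℕ}
    {F : Fin r → MvPolynomial (Fin N) ℂ} {e : ℕ} {Y : Set (Fin N → ℂ)} (hY : Constr Y)
    (h1 : ∀ x ∈ Y, ∀ j, d j < e → eval x (F j) = 0)
    (h2 : ∀ x ∈ Y, ∃ j, d j = e ∧ eval x (F j) ≠ 0)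
    (h3 : ∀ x₀ ∈ Y, ∀ x, (∀ j, d j ≤ e → eval x (F j) = eval x₀ (F j)) → x ∈ Y)
    (M : Finset ℕ) (c : ℕ → ℂ)
    (h4 : ∀ y : Fin r → ℂ, (∃ j, d j = e ∧ y j ≠ 0) →
      ∑ m ∈ M, c m * (χ (cls (fibre w d F e y m)) : ℂ) = 0) :
    ∑ m ∈ M, c m * (χ (cls {x | x ∈ Y ∧ ∀ i, ¬ e ∣ m * w i → x i = 0}) : ℂ) = 0 := by
  refine fub_dual M c _ fun b hb => ?_
  obtain ⟨D, φ, hD0, hb⟩ := hb
  refine fub_int hχ w hY h1 h2 h3 M b fun y hy => ?_
  have h5 := congrArg φ (h4 y hy)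
  rw [map_zero, map_sum] at h5
  have h6 : ((∑ m ∈ M, b m * χ (cls (fibre w d F e y m)) : ℤ) : ℚ) = 0 := by
    rw [← mul_zero (D : ℚ), ← h5, Finset.mul_sum]
    push_cast
    refine Finset.sum_congr rfl fun m hm => ?_
    have h7 : c m * (χ (cls (fibre w d F e y m)) : ℂ) =
        ((χ (cls (fibre w d F e y m)) : ℤ) : ℚ) • c m := by
      rw [mul_comm, Rat.smul_def]
      push_cast
      rfl
    rw [h7, map_smul, smul_eq_mul, hb m hm]
    ring
  exact_mod_cast h6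

end DW
end MotMono
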