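import Pool.Agent.Lib.MP_4e5fcd_ag.DW.RDef

/-!
# DW-MPerm: the numbers `R` are symmetric in the degrees; recursion for `UU`

PROOF.
`R_aux`: `d * R n (d' :: L) - d' * R n (d :: L) = (d - d') * R n (d :: d' :: L)` by induction on `n`: both
sides are `0` for `n = 0`; for `n + 1` the left side is (unfold) `d d' (R n (d :: L) - R n (d' :: L))`, and the
right side `(d - d') d (R n (d' :: L) - R n (d :: d' :: L))`; use the induction hypothesis.
`R_swap`: for `n + 1` unfold both sides and use `R_aux` and the induction hypothesis.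
`R_perm`: induction on `List.Perm`; the cons case by induction on `n`.
`UU_nil`: `R T.card [] = 0` unless `T = ∅`. `UU_empty`: `R 0 (d :: L) = 0`.
`UU_insert`: `Finset.sum_powerset_insert`; for `T ⊆ S`, `card (insert i T) = card T + 1`,
`∏ over insert i T = w i * ∏ over T`, `R (n + 1) (d :: L) = d * (R n L - R n (d :: L))`.
-/

namespace MotMono
namespace DW

private theorem mp_zero_nil : R 0 [] = 1 := by simp [R]

private theorem mp_succ_nil (n : ℕ) : R (n + 1) [] = 0 := by simp [R]

private theorem mp_zero_cons (d : ℕ) (L : List ℕ) : R 0 (d :: L) = 0 := by simp [R]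

private theorem mp_succ_cons (n d : ℕ) (L : List ℕ) :
    R (n + 1) (d :: L) = d * (R n L - R n (d :: L)) := by simp [R]

private theorem mp_R_aux (d d' : ℕ) (L : List ℕ) (n : ℕ) :
    (d : ℤ) * R n (d' :: L) - d' * R n (d :: L) = ((d : ℤ) - d') * R n (d :: d' :: L) := by
  induction n with
  | zero => simp [mp_zero_cons]
  | succ n ih =>
    rw [mp_succ_cons, mp_succ_cons, mp_succ_cons]
    linear_combination (-(d : ℤ)) * ih

theorem R_swap (d d' : ℕ) (L : List ℕ) (n : ℕ) : R n (d :: d' :: L) = R n (d' :: d :: L) := by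
  induction n with
  | zero => simp [mp_zero_cons]
  | succ n ih =>
    rw [mp_succ_cons, mp_succ_cons]
    have h := mp_R_aux d d' L n
    rw [← ih]
    linear_combination h

theorem R_perm {L L' : List ℕ} (h : L.Perm L') (n : ℕ) : R n L = R n L' := by
  induction h generalizing n with
  | nil => rfl
  | cons x _ ih =>
    induction n with
    | zero => simp [mp_zero_cons]
    | succ n ihn => rw [mp_succ_cons, mp_succ_cons, ihn, ih]
  | swap x y l => exact R_swap y x l n
  | trans _ _ ih1 ih2 => rw [ih1, ih2]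

theorem UU_perm {N : ℕ} (w : Fin N → ℕ) (S : Finset (Fin N)) {L L' : List ℕ} (h : L.Perm L') :
    UU w S L = UU w S L' := by
  unfold UU
  exact Finset.sum_congr rfl fun T _ => by rw [R_perm h]

theorem UU_nil {N : ℕ} (w : Fin N → ℕ) (S : Finset (Fin N)) : UU w S [] = 1 := by
  unfold UU
  rw [Finset.sum_eq_single ∅]
  · simp [mp_zero_nil]
  · intro T _ hT
    obtain ⟨n, hn⟩ : ∃ n, T.card = n + 1 :=
      ⟨T.card - 1, by have := Finset.card_pos.2 (Finset.nonempty_iff_ne_empty.2 hT); omega⟩
    rw [hn, mp_succ_nil]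
    simp
  · intro h
    exact absurd (Finset.empty_mem_powerset S) h

theorem UU_empty {N : ℕ} (w : Fin N → ℕ) (d : ℕ) (L : List ℕ) : UU w ∅ (d :: L) = 0 := by
  unfold UU
  simp [mp_zero_cons]

theorem UU_insert {N : ℕ} {w : Fin N → ℕ} (hw : ∀ i, 0 < w i) {S : Finset (Fin N)} {i : Fin N}
    (hi : i ∉ S) (d : ℕ) (L : List ℕ) :
    UU w (insert i S) (d :: L) =
      (d : ℚ) / w i * UU w S L - ((d : ℚ) / w i - 1) * UU w S (d :: L) := by
  have hwi : (w i : ℚ) ≠ 0 := by
    have := hw i
    positivity
  unfold UU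
  rw [Finset.sum_powerset_insert hi, Finset.mul_sum, Finset.mul_sum, ← Finset.sum_add_distrib,
    ← Finset.sum_sub_distrib]
  refine Finset.sum_congr rfl fun T hT => ?_
  have hiT : i ∉ T := fun h => hi (Finset.mem_powerset.1 hT h)
  rw [Finset.card_insert_of_notMem hiT, Finset.prod_insert hiT, mp_succ_cons]
  have hp : (∏ j ∈ T, (w j : ℚ)) ≠ 0 := by
    rw [Finset.prod_ne_zero_iff]
    intro j _
    have := hw j
    positivity
  push_cast
  field_simp
  ring

/-- `UU` by recursion over the list of the variables -/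
theorem UU_uz {N : ℕ} {w : Fin N → ℕ} (hw : ∀ i, 0 < w i) (z : ℂ) (l : List (Fin N)) (hl : l.Nodup)
    (S : Finset (Fin N)) (hS : ∀ i, i ∈ S ↔ i ∈ l ∧ z ^ w i = 1) (L : List ℕ) :
    ((UU w S L : ℚ) : ℂ) = uz z (l.map w) L := by
  induction l generalizing S L with
  | nil =>
    have hS0 : S = ∅ := by
      ext i
      simp [hS i]
    subst hS0
    cases L with
    | nil => simp [UU_nil, uz]
    | cons d L => simp [UU_empty, uz]
  | cons i l ih =>
    rw [List.nodup_cons] at hl
    obtain ⟨hil, hl⟩ := hl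
    cases L with
    | nil => simp [UU_nil, uz]
    | cons d L =>
      by_cases hz : z ^ w i = 1
      · have hiS : i ∈ S := (hS i).2 ⟨List.mem_cons_self, hz⟩
        have hS' : ∀ j, j ∈ S.erase i ↔ j ∈ l ∧ z ^ w j = 1 := by
          intro j
          rw [Finset.mem_erase, hS j, List.mem_cons]
          constructor
          · rintro ⟨h1, h2 | h2, h3⟩
            · exact absurd h2 h1
            · exact ⟨h2, h3⟩
          · rintro ⟨h1, h2⟩
            exact ⟨fun h => hil (h ▸ h1), Or.inr h1, h2⟩
        rw [← Finset.insert_erase hiS, UU_insert hw (Finset.notMem_erase i S), List.map_cons, uz,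
          if_pos hz, ← ih hl _ hS' L, ← ih hl _ hS' (d :: L)]
        push_cast
        ring
      · have hS' : ∀ j, j ∈ S ↔ j ∈ l ∧ z ^ w j = 1 := by
          intro j
          rw [hS j, List.mem_cons]
          constructor
          · rintro ⟨h2 | h2, h3⟩
            · exact absurd (h2 ▸ h3) hz
            · exact ⟨h2, h3⟩
          · rintro ⟨h1, h2⟩
            exact ⟨Or.inr h1, h2⟩
        rw [List.map_cons, uz, if_neg hz, ← ih hl _ hS' (d :: L)]

end DW
end MotMono
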