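import Pool.Agent.Lib.MP_4e5fcd_ag.DW.MFer

/-!
# DW-MRes: restriction to a coordinate subspace

PROOF.
`cls_res`: `cls_iso` with the maps `x ↦ x ∘ g` and `x ↦ Function.extend g x 0` (polynomial: each coordinate is a coordinate
or `0`; compare `cls_fam_some` in `SW/BH2.lean`); `Function.Injective.extend_apply`, `Function.extend_apply'`.
The set on the right is constructible: `Constr.comp` or a polynomial map.
`eval_res`: algebra homomorphisms which agree at `C` and `X i` (see `eval_sub` in `HC/Ns.lean`).
`pderiv_res`: induction on `p` (see `pderiv_sub`, `pderiv_up` in `HC/Ns.lean`).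
`wh_res`: `p = ∑ monomials`; `res g (monomial m c)` is `C c * ∏ i, (extend g X 0 i) ^ m i`, each `extend g X 0 i` is weighted
homogeneous of degree `w i` for `w ∘ g` (`X a` with `g a = i`, or `0`); `IsWeightedHomogeneous.prod`, `.pow`, `.sum`.
`ns_res`: let `x ≠ 0`, `μ` be as in `NS (fun j => res g (F j))`, and `c := extend g x 0 ≠ 0`. `eval c (F j) = 0`. For
`i = g a`, `∂_i F j (c) = ∂_a (res g (F j)) (x)`. For `i ∉ range g`, i.e. `¬ e ∣ m * w i`: `∂_i F j (c) = 0`, because a
monomial `X^k` of `F j` whose derivative `∂_i` does not vanish at `c` has `k i = 1` (`c i = 0`) and `k i' = 0` for all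
`i' ≠ i`, `i' ∉ range g`; so `m δ j = m w i + ∑_{i' ∈ range g} k i' m w i'`, and `e ∣ m * w i`, a contradiction. So `NS F` gives
`μ = 0`.
-/

open MvPolynomial

namespace MotMono
namespace DW

open LF HC

private theorem mres_ev {k N : ℕ} {g : Fin k → Fin N} (hg : Function.Injective g)
    (x : Fin k → ℂ) (i : Fin N) :
    eval x (Function.extend g (fun a => (X a : MvPolynomial (Fin k) ℂ)) 0 i) =
      Function.extend g x 0 i := by
  by_cases hi : ∃ a, g a = i
  · obtain ⟨a, rfl⟩ := hi
    rw [hg.extend_apply, hg.extend_apply, eval_X]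
  · rw [Function.extend_apply' _ _ _ hi, Function.extend_apply' _ _ _ hi]
    simp

theorem cls_res {k N : ℕ} {g : Fin k → Fin N} (hg : Function.Injective g) {A : Set (Fin N → ℂ)}
    (hA : Constr A) (h0 : ∀ x ∈ A, ∀ i, i ∉ Set.range g → x i = 0) :
    cls A = cls {x : Fin k → ℂ | Function.extend g x 0 ∈ A} := by
  have hC : Constr {x : Fin k → ℂ | Function.extend g x 0 ∈ A} := by
    have h1 := hA.preimage (Function.extend g (fun a => (X a : MvPolynomial (Fin k) ℂ)) 0)
    have h2 : ∀ x : Fin k → ℂ, (fun i => eval x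
        (Function.extend g (fun a => (X a : MvPolynomial (Fin k) ℂ)) 0 i)) =
        Function.extend g x 0 := fun x => funext fun i => mres_ev hg x i
    simpa only [h2] using h1
  have h3 : ∀ x ∈ A, Function.extend g (fun a => x (g a)) 0 = x := by
    intro x hx
    funext i
    by_cases hi : ∃ a, g a = i
    · obtain ⟨a, rfl⟩ := hi
      rw [hg.extend_apply]
    · rw [Function.extend_apply' _ _ _ hi]
      exact (h0 x hx i hi).symm
  refine cls_iso hA hC ⟨fun x a => x (g a), fun x => Function.extend g x 0, ?_, ?_, ?_, ?_, ?_, ?_⟩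
  · intro a
    exact ⟨X (g a), 1, fun x _ => ⟨by simp, by simp⟩⟩
  · intro i
    refine ⟨Function.extend g (fun a => (X a : MvPolynomial (Fin k) ℂ)) 0 i, 1, fun x _ =>
      ⟨by simp, ?_⟩⟩
    rw [mres_ev hg, map_one, div_one]
  · intro x hx
    show Function.extend g (fun a => x (g a)) 0 ∈ A
    rw [h3 x hx]
    exact hx
  · intro x hx
    exact hx
  · intro x hx
    exact h3 x hx
  · intro x _
    funext a
    exact hg.extend_apply _ _ _

/-- restriction to the coordinate subspace of the variables `g a` -/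
noncomputable def res {k N : ℕ} (g : Fin k → Fin N) :
    MvPolynomial (Fin N) ℂ →ₐ[ℂ] MvPolynomial (Fin k) ℂ :=
  aeval (Function.extend g (fun a => (X a : MvPolynomial (Fin k) ℂ)) 0)

theorem eval_res {k N : ℕ} {g : Fin k → Fin N} (hg : Function.Injective g) (x : Fin k → ℂ)
    (p : MvPolynomial (Fin N) ℂ) : eval x (res g p) = eval (Function.extend g x 0) p := by
  induction p using MvPolynomial.induction_on with
  | C a =>
    have : res g (C a) = C a := by
      unfold res
      rw [aeval_C]
      rfl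
    rw [this, eval_C, eval_C]
  | add p q hp hq => rw [map_add, eval_add, eval_add, hp, hq]
  | mul_X p n hp =>
    rw [map_mul, eval_mul, eval_mul, hp, eval_X]
    congr 1
    unfold res
    rw [aeval_X, mres_ev hg]

theorem pderiv_res {k N : ℕ} {g : Fin k → Fin N} (hg : Function.Injective g) (x : Fin k → ℂ)
    (a : Fin k) (p : MvPolynomial (Fin N) ℂ) :
    eval x (pderiv a (res g p)) = eval (Function.extend g x 0) (pderiv (g a) p) := by
  classical
  induction p using MvPolynomial.induction_on with
  | C b =>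
    have : res g (C b) = C b := by
      unfold res
      rw [aeval_C]
      rfl
    rw [this, pderiv_C, pderiv_C]
    simp
  | add p q hp hq => simp only [map_add, hp, hq]
  | mul_X p n hp =>
    have h1 : eval x (pderiv a (res g (X n))) = eval (Function.extend g x 0) (pderiv (g a) (X n)) := by
      unfold res
      rw [aeval_X]
      by_cases hn : ∃ b, g b = n
      · obtain ⟨b, rfl⟩ := hn
        rw [hg.extend_apply]
        by_cases hab : b = a
        · subst hab
          rw [pderiv_X_self, pderiv_X_self, map_one, map_one]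
        · rw [pderiv_X_of_ne hab, pderiv_X_of_ne (fun h => hab (hg h)), map_zero, map_zero]
      · rw [Function.extend_apply' _ _ _ hn, pderiv_X_of_ne (fun h => hn ⟨a, h.symm⟩)]
        simp
    rw [map_mul, pderiv_mul, eval_add, eval_mul, eval_mul, hp, h1, eval_res hg, eval_res hg,
      pderiv_mul, eval_add, eval_mul, eval_mul]

theorem wh_res {k N : ℕ} {g : Fin k → Fin N} (hg : Function.Injective g) {w : Fin N → ℕ} {δ : ℕ}
    {p : MvPolynomial (Fin N) ℂ} (hp : IsWeightedHomogeneous w p δ) :
    IsWeightedHomogeneous (fun a => w (g a)) (res g p) δ := by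
  classical
  have h1 : ∀ i, IsWeightedHomogeneous (fun a => w (g a))
      (Function.extend g (fun a => (X a : MvPolynomial (Fin k) ℂ)) 0 i) (w i) := by
    intro i
    by_cases hi : ∃ a, g a = i
    · obtain ⟨a, rfl⟩ := hi
      rw [hg.extend_apply]
      exact isWeightedHomogeneous_X ℂ _ a
    · rw [Function.extend_apply' _ _ _ hi]
      exact isWeightedHomogeneous_zero ℂ _ _
  have h2 : res g p = ∑ s ∈ p.support, res g (monomial s (coeff s p)) := by
    conv_lhs => rw [p.as_sum]
    rw [map_sum]
  rw [h2]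
  rw [← mem_weightedHomogeneousSubmodule]
  refine Submodule.sum_mem _ fun s hs => ?_
  rw [mem_weightedHomogeneousSubmodule]
  have h3 : Finsupp.weight w s = δ := hp (mem_support_iff.1 hs)
  unfold res
  rw [aeval_monomial, algebraMap_eq, Finsupp.prod]
  have h4 : IsWeightedHomogeneous (fun a => w (g a)) (∏ i ∈ s.support,
      (Function.extend g (fun a => (X a : MvPolynomial (Fin k) ℂ)) 0 i) ^ s i)
      (∑ i ∈ s.support, s i • w i) :=
    IsWeightedHomogeneous.prod _ _ _ fun i _ => (h1 i).pow (s i)
  have h5 : ∑ i ∈ s.support, s i • w i = δ := by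
    rw [← h3, Finsupp.weight_apply, Finsupp.sum]
  rw [h5] at h4
  have h6 := (isWeightedHomogeneous_C (fun a => w (g a)) (coeff s p)).mul h4
  rwa [zero_add] at h6

private theorem mres_zero {k N : ℕ} {g : Fin k → Fin N} {w : Fin N → ℕ}
    {δ : ℕ} {p : MvPolynomial (Fin N) ℂ}
    (hp : IsWeightedHomogeneous w p δ) {e m : ℕ}
    (hge : ∀ i, i ∈ Set.range g ↔ e ∣ m * w i) (hδ : e ∣ m * δ) (x : Fin k → ℂ) (i : Fin N)
    (hi : i ∉ Set.range g) : eval (Function.extend g x 0) (pderiv i p) = 0 := by
  classical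
  have h2 : pderiv i p = ∑ s ∈ p.support, pderiv i (monomial s (coeff s p)) := by
    conv_lhs => rw [p.as_sum]
    rw [map_sum]
  rw [h2, map_sum]
  refine Finset.sum_eq_zero fun s hs => ?_
  by_contra hne
  rw [pderiv_monomial, eval_monomial, Finsupp.prod_fintype _ _ (fun _ => pow_zero _)] at hne
  have h3 : Finsupp.weight w s = δ := hp (mem_support_iff.1 hs)
  have h4 := right_ne_zero_of_mul hne
  have h5 : (s i : ℂ) ≠ 0 := right_ne_zero_of_mul (left_ne_zero_of_mul hne)
  have h6 : s i ≠ 0 := by exact_mod_cast h5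
  rw [Finset.prod_ne_zero_iff] at h4
  have h7 : ∀ l, l ∉ Set.range g → (s - Finsupp.single i 1 : Fin N →₀ ℕ) l = 0 := by
    intro l hl
    have h8 := h4 l (Finset.mem_univ l)
    rw [Function.extend_apply' _ _ _ hl, Pi.zero_apply] at h8
    by_contra hcon
    exact h8 (zero_pow hcon)
  have h9 : s i = 1 := by
    have h10 := h7 i hi
    rw [Finsupp.tsub_apply, Finsupp.single_eq_same] at h10
    omega
  have h11 : ∀ l, l ≠ i → e ∣ s l * (m * w l) := by
    intro l hl
    by_cases hlg : l ∈ Set.range g
    · exact Dvd.dvd.mul_left ((hge l).1 hlg) _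
    · have h10 := h7 l hlg
      rw [Finsupp.tsub_apply, Finsupp.single_eq_of_ne hl, Nat.sub_zero] at h10
      rw [h10, zero_mul]
      exact dvd_zero e
  have h12 : m * δ = ∑ l, s l * (m * w l) := by
    rw [← h3, Finsupp.weight_apply, Finsupp.sum_fintype _ _ (fun l => zero_smul ℕ (w l)),
      Finset.mul_sum]
    refine Finset.sum_congr rfl fun l _ => ?_
    rw [smul_eq_mul]
    ring
  rw [h12, ← Finset.add_sum_erase _ _ (Finset.mem_univ i), h9, one_mul] at hδ
  have h13 : e ∣ ∑ l ∈ Finset.univ.erase i, s l * (m * w l) :=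
    Finset.dvd_sum fun l hl => h11 l (Finset.ne_of_mem_erase hl)
  exact hi ((hge i).2 ((Nat.dvd_add_left h13).1 hδ))

theorem ns_res {c k N : ℕ} {g : Fin k → Fin N} (hg : Function.Injective g) {w : Fin N → ℕ}
    {δ : Fin c → ℕ} {F : Fin c → MvPolynomial (Fin N) ℂ}
    (hF : ∀ j, IsWeightedHomogeneous w (F j) (δ j)) {e m : ℕ}
    (hge : ∀ i, i ∈ Set.range g ↔ e ∣ m * w i) (hδ : ∀ j, e ∣ m * δ j) (h : NS F) :
    NS fun j => res g (F j) := by
  intro x hx hx0 μ hμ
  refine h (Function.extend g x 0) ?_ (fun j => ?_) μ fun l => ?_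
  · intro h1
    apply hx
    funext a
    have h2 := congrFun h1 (g a)
    rwa [hg.extend_apply] at h2
  · rw [← eval_res hg]
    exact hx0 j
  · by_cases hl : l ∈ Set.range g
    · obtain ⟨a, rfl⟩ := hl
      rw [← hμ a]
      exact Finset.sum_congr rfl fun j _ => by rw [pderiv_res hg]
    · exact Finset.sum_eq_zero fun j _ => by rw [mres_zero (hF j) hge (hδ j) x l hl, mul_zero]

end DW
end MotMono
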