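import Pool.Agent.Lib.MP_4e5fcd_ag.SW.N2

/-!
# DW-Sw: semi-weighted-homogeneous complete intersections, fewer conditions

The statement of `swci_main` with the condition on the fibres only for the degrees `e` such that at most
`N - 2` of the degrees are smaller than `e` (otherwise `{F j = 0 (d j < e)}` is at most a curve).
-/

open MvPolynomial

namespace MotMono
namespace WH



variable {N r : ℕ}

private theorem n2_rk {d : Fin r → ℕ} {F : Fin r → MvPolynomial (Fin N) ℂ}
    (h : CInt d F) {c : Fin N → ℂ} (hc : c ≠ 0) {e : ℕ} (hz : ∀ j, d j < e → eval c (F j) = 0)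
    {i : ℕ} (hi : i < e) : rk d F c i = (Finset.univ.filter fun j => d j ≤ i).card := by
  classical
  have h1 := h c hc i (fun j hj => hz j (lt_of_le_of_lt hj hi))
  have h2 : {v | ∃ j, d j ≤ i ∧ v = grad (F j) c} =
      Set.range fun j : {j // d j ≤ i} => grad (F j) c := by
    ext v
    constructor
    · rintro ⟨j, hj, rfl⟩
      exact ⟨⟨j, hj⟩, rfl⟩
    · rintro ⟨j, rfl⟩
      exact ⟨j.1, j.2, rfl⟩
  unfold rk
  rw [h2, finrank_span_eq_card h1, Fintype.card_subtype]

private theorem n2_pn {w : Fin N → ℕ} {d : Fin r → ℕ} {F : Fin r → MvPolynomial (Fin N) ℂ}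
    (hd : ∀ j, 0 < d j)
    (h : CInt d F) {c : Fin N → ℂ} (hc : c ≠ 0) {e : ℕ} (hz : ∀ j, d j < e → eval c (F j) = 0) :
    pn w d F c e = qn w d e := by
  classical
  unfold pn qn
  congr 1
  have h1 : ∀ i ∈ Finset.range e, (i : ℤ) * ((rk d F c i : ℤ) - rk d F c (i - 1)) =
      ∑ j ∈ Finset.univ.filter (fun j => d j = i), (d j : ℤ) := by
    intro i hi
    rw [Finset.mem_range] at hi
    rcases Nat.eq_zero_or_pos i with h0 | h0
    · subst h0
      rw [Finset.filter_false_of_mem fun j _ => (hd j).ne']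
      simp
    · rw [n2_rk h hc hz hi, n2_rk h hc hz (lt_of_le_of_lt (Nat.sub_le _ _) hi)]
      have h2 : (Finset.univ.filter fun j => d j ≤ i) =
          (Finset.univ.filter fun j => d j ≤ i - 1) ∪ (Finset.univ.filter fun j => d j = i) := by
        ext j
        simp only [Finset.mem_filter, Finset.mem_univ, true_and, Finset.mem_union]
        omega
      have h3 : Disjoint (Finset.univ.filter fun j => d j ≤ i - 1)
          (Finset.univ.filter fun j => d j = i) := by
        rw [Finset.disjoint_filter]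
        intro j _ h4 h5
        omega
      rw [h2, Finset.card_union_of_disjoint h3]
      push_cast
      rw [Finset.sum_congr rfl (g := fun _ => (i : ℤ)) (fun j hj => by
        rw [(Finset.mem_filter.1 hj).2]), Finset.sum_const]
      rw [nsmul_eq_mul]
      ring
  rw [Finset.sum_congr rfl h1]
  rw [← Finset.sum_fiberwise_of_maps_to (s := Finset.univ.filter fun j => d j < e)
    (t := Finset.range e) (g := d) (fun j hj => Finset.mem_range.2 (Finset.mem_filter.1 hj).2)]
  refine Finset.sum_congr rfl fun i hi => ?_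
  congr 1
  ext j
  simp only [Finset.mem_filter, Finset.mem_univ, true_and]
  rw [Finset.mem_range] at hi
  omega

theorem swci_main' {χ : K0 →+* ℤ} (hχ : IsEulerCharF χ) (w : Fin N → ℕ) (d : Fin r → ℕ)
    (f : Fin r → MvPolynomial (Fin N) ℂ) (hr : 0 < r) (hw : ∀ i, 0 < w i) (hd : ∀ j, 0 < d j)
    (ho : ∀ j m, coeff m (f j) ≠ 0 → d j ≤ ∑ i, m i * w i) (hi : ∀ j, ini w d f j ≠ 0)
    (hs : CInt d (ini w d f)) (s₀ : ℚ)
    (hp : ∀ e, (∃ j, d j = e) → (∃ c, c ≠ 0 ∧ ∀ j, d j < e → eval c (ini w d f j) = 0) →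
      nn d e + 2 ≤ N →
      s₀ = -((qn w d e + e * (nn d e : ℤ) : ℤ) : ℚ) / e →
      (∀ z : ℤ, s₀ ≠ z) → ∃ y : Fin r → ℂ, (∃ j, d j = e ∧ y j ≠ 0) ∧
        ∑ m ∈ Finset.Icc 1 e, Complex.exp (-(2 * Real.pi * Complex.I * s₀ * m)) *
          (χ (cls (fibre w d (ini w d f) e y m)) : ℂ) ≠ 0)
    (hpole : IsPole (Zmot (Ideal.span (Set.range f))) s₀) (ε : ℝ) (hε : 0 < ε) :
    ∃ p : Fin N → ℂ, ‖p‖ < ε ∧ (∀ g ∈ Ideal.span (Set.range f), eval p g = 0) ∧
      ∃ y : ConePoint (Ideal.span (Set.range f)) p, y.Nonzero ∧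
        ∃ Z, IsZeta (fun m => χ (cls (contactArcs (Ideal.span (Set.range f)) p y m))) Z ∧
          ZeroOrPole Z (Complex.exp (2 * Real.pi * Complex.I * s₀)) := by
  classical
  refine swh_main hχ w d f hr hw hd ho hi (smoothS_of_cint ho hs) s₀ ?_ hpole ε hε
  intro c hc e hJ heq
  have hex : ∃ j, d j = e := by
    rcases hJ.2 with ⟨j, hj, _⟩ | h2
    · exact ⟨j, hj⟩
    · by_contra h3
      push Not at h3
      apply absurd h2
      have h4 : {v | ∃ j, d j ≤ e ∧ v = grad (ini w d f j) c} =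
          {v | ∃ j, d j ≤ e - 1 ∧ v = grad (ini w d f j) c} := by
        ext v
        constructor
        · rintro ⟨j, hj, rfl⟩
          exact ⟨j, by have := h3 j; omega, rfl⟩
        · rintro ⟨j, hj, rfl⟩
          exact ⟨j, by omega, rfl⟩
      unfold rk
      rw [h4]
      exact lt_irrefl _
  have he : 0 < e := by
    obtain ⟨j, hj⟩ := hex
    rw [← hj]
    exact hd j
  have hq : pn w d (ini w d f) c e = qn w d e := n2_pn hd hs hc hJ.1
  have hn : rk d (ini w d f) c (e - 1) = nn d e := by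
    rw [n2_rk hs hc hJ.1 (Nat.sub_lt he Nat.one_pos)]
    unfold nn
    congr 1
    ext j
    simp only [Finset.mem_filter, Finset.mem_univ, true_and]
    omega
  rw [hq, hn] at heq
  have he' : (e : ℂ) ≠ 0 := by exact_mod_cast he.ne'
  have heq' : (e : ℚ) ≠ 0 := by exact_mod_cast he.ne'
  by_cases hcur : N ≤ nn d e + 1
  · right; left
    intro x hx hzx
    rw [n2_rk hs hx hzx (Nat.sub_lt he Nat.one_pos)]
    have h5 : (Finset.univ.filter fun j => d j ≤ e - 1).card = nn d e := by
      unfold nn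
      congr 1
      ext j
      simp only [Finset.mem_filter, Finset.mem_univ, true_and]
      omega
    rw [h5]
    exact hcur
  by_cases hz : ∀ z : ℤ, s₀ ≠ z
  · right; right; right
    obtain ⟨y, hy, hS⟩ := hp e hex ⟨c, hc, hJ.1⟩ (by omega) heq hz
    have hμ : (Complex.exp (-(2 * Real.pi * Complex.I * s₀))) ^ e = 1 := by
      rw [← Complex.exp_nat_mul]
      have h1 : (e : ℂ) * -(2 * Real.pi * Complex.I * s₀) =
          ((qn w d e + e * (nn d e : ℤ) : ℤ) : ℂ) * (2 * Real.pi * Complex.I) := by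
        rw [heq]
        push_cast
        field_simp
      rw [h1, Complex.exp_int_mul_two_pi_mul_I]
    have h2 := eig_of_sum hχ (wt_ini ⟨hw, hd, ho, hi⟩) hy hμ (by
      intro h3
      apply hS
      rw [← h3]
      refine Finset.sum_congr rfl fun m _ => ?_
      congr 1
      rw [← Complex.exp_nat_mul]
      congr 1
      ring)
    rw [← Complex.exp_neg, neg_neg] at h2
    exact h2
  · left
    push Not at hz
    obtain ⟨z, hz⟩ := hz
    rw [hq]
    refine ⟨-z - nn d e, ?_⟩
    rw [hz] at heq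
    have h1 : (z : ℚ) * e = -((qn w d e + e * (nn d e : ℤ) : ℤ) : ℚ) := by
      rw [heq]
      field_simp
    have h2 : z * e = -(qn w d e + e * (nn d e : ℤ)) := by exact_mod_cast h1
    linarith

end WH
end MotMono
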