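import Pool.Agent.Lib.MP_4e5fcd_ag.DW.MEx
import Pool.Agent.Lib.MP_4e5fcd_ag.HC.Main
import Pool.Agent.Lib.MP_4e5fcd_ag.DW.Sw

/-!
# DW-Main: complete intersections whose weights divide the degrees
-/

open MvPolynomial

namespace MotMono
namespace DW

open WH LF HC HZ

variable {N r : ℕ}

private theorem two_mul_le {a b : ℕ} (hb : 0 < b) (h : a ∣ b) (hlt : a < b) : 2 * a ≤ b := by
  obtain ⟨k, rfl⟩ := h
  rcases k with _ | _ | k
  · omega
  · omega
  · nlinarith [Nat.zero_le (a * k)]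

/-- **The theorem.** `s₀` may be `-(q + e n) / e` only if all weights are proper divisors of all degrees
`≤ e`, or if one of the fibres of degree `e` has a non-zero signed count, or if `s₀` is an integer, or if
`n ≥ N - 1`. -/
theorem dw_main {χ : K0 →+* ℤ} (hχ : IsEulerCharW χ) (w : Fin N → ℕ) (d : Fin r → ℕ)
    (f : Fin r → MvPolynomial (Fin N) ℂ) (hr : 0 < r) (hw : ∀ i, 0 < w i) (hd : ∀ j, 0 < d j)
    (ho : ∀ j m, coeff m (f j) ≠ 0 → d j ≤ ∑ i, m i * w i) (hi : ∀ j, ini w d f j ≠ 0)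
    (hs : CInt d (ini w d f)) (s₀ : ℚ)
    (hp : (∀ i, w i = 1) ∨ ∀ j₀, nn d (d j₀) + 2 ≤ N →
      s₀ = -((qn w d (d j₀) + d j₀ * (nn d (d j₀) : ℤ) : ℤ) : ℚ) / d j₀ →
      (∀ z : ℤ, s₀ ≠ z) →
        (∀ j, d j ≤ d j₀ → ∀ i, w i ∣ d j ∧ w i < d j) ∨
        ∃ y : Fin r → ℂ, (∃ j, d j = d j₀ ∧ y j ≠ 0) ∧
          ∑ m ∈ Finset.Icc 1 (d j₀), Complex.exp (-(2 * Real.pi * Complex.I * s₀ * m)) *
            (χ (cls (fibre w d (ini w d f) (d j₀) y m)) : ℂ) ≠ 0)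
    (hpole : IsPole (Zmot (Ideal.span (Set.range f))) s₀) (ε : ℝ) (hε : 0 < ε) :
    ∃ p : Fin N → ℂ, ‖p‖ < ε ∧ (∀ g ∈ Ideal.span (Set.range f), eval p g = 0) ∧
      ∃ y : ConePoint (Ideal.span (Set.range f)) p, y.Nonzero ∧
        ∃ Z, IsZeta (fun m => χ (cls (contactArcs (Ideal.span (Set.range f)) p y m))) Z ∧
          ZeroOrPole Z (Complex.exp (2 * Real.pi * Complex.I * s₀)) := by
  classical
  rcases hp with hp | hp
  · obtain rfl : w = fun _ => 1 := funext hp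
    exact hom_main (isEulerCharC_of_W hχ) d f hr hd (fun j m hm => by simpa using ho j m hm) hi hs
      s₀ hpole ε hε
  refine swci_main' hχ.toIsEulerCharF w d f hr hw hd ho hi hs s₀ ?_ hpole ε hε
  rintro e ⟨j₀, rfl⟩ ⟨c, hc, hz⟩ hn heq hs₀
  rcases hp j₀ hn heq hs₀ with hwd | hE
  swap
  · exact hE
  have he' : (d j₀ : ℚ) ≠ 0 := by exact_mod_cast (hd j₀).ne'
  have hec : (d j₀ : ℂ) ≠ 0 := by exact_mod_cast (hd j₀).ne'
  have hFw : ∀ j, IsWeightedHomogeneous w (ini w d f j) (d j) := fun j =>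
    weightedHomogeneousComponent_isWeightedHomogeneous (d j) (f j)
  obtain ⟨y, hy, hX⟩ := exists_fibre_dw hχ hw hd hFw hs j₀
    (fun j hj i => ⟨(hwd j hj i).1, two_mul_le (hd j) (hwd j hj i).1 (hwd j hj i).2⟩) hc hz (by
    rintro ⟨k, hk⟩
    apply hs₀ (-(k + nn d (d j₀)))
    rw [heq, hk]
    push_cast
    field_simp)
  refine ⟨y, hy, ?_⟩
  intro h6
  apply hX
  rw [← h6]
  refine Finset.sum_congr rfl fun m _ => ?_
  congr 1
  have h7 : -(2 * Real.pi * Complex.I * s₀ * m) =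
      2 * Real.pi * Complex.I * (qn w d (d j₀)) * m / (d j₀ : ℕ) +
        ((nn d (d j₀) * m : ℕ) : ℤ) * (2 * Real.pi * Complex.I) := by
    rw [heq]
    push_cast
    field_simp
  rw [h7, Complex.exp_add, Complex.exp_int_mul_two_pi_mul_I, mul_one]

end DW
end MotMono
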